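import Pool.Agent.P.MP_08fd93_co.FP2.R3
import Pool.Agent.P.MP_08fd93_co.FK.K6

/-! Frames with one orbit of short tails: the record of a plan. -/

set_option autoImplicit false

namespace Pool.Agent.P.MP_08fd93_co.TT

open OV PkPrtP FB FE FZ FN FU FR FK FP2

variable {J : Type}

/-- The edge that a token of a static vertex pays. -/
inductive Jb where
  | a | b | c | d | no

/-- Flags of the strict edges at the tail, jobs of `v` and `z`, the row vertices `A` that point to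
the right, forced monochromatic sinks, sinks whose left (right) end pays below. -/
structure TX (J : Type) where
  x : Fl
  jv : Jb
  jz : Jb
  A : Set (Vx J)
  Fm : Set J
  Dl : Set J
  Dr : Set J

/-- Sources and sinks as sets of edges. -/
def ed (E : EJ J) : ED J :=
  ⟨{y | y.1 ∈ E.Sr}, {y | y.1 ∈ E.Sk}, {y | y.1 ∈ E.Sk}, ∅, ∅, ∅⟩

/-- The pinned edges; chords are pinned for free. -/
def Pin (G : TD J) (E : EJ J) : Set (Vx J) := {y | y.1 ∈ E.Pn ∨ Chd G y}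

/-- The ends of the pins and the feet of the necks. -/
def En (G : TD J) (E : EJ J) : Set (Vx J) :=
  {y | (∃ g ∈ Pin G E, g ∈ G.LA ∧ (y = g ∨ y = G.nx g)) ∨ ∃ k ∈ G.V, y = G.xl k ∨ y = G.xr k}

/-- The visible vertices: all chains of left feet of parents that begin in `En`. -/
def Vt (G : TD J) (E : EJ J) : Set (Vx J) := {x | ∃ n, ∃ y ∈ En G E, x = (FT G).an^[n] y}

/-- The static edges. -/
def Sta (G : TD J) (E : EJ J) : Set (Vx J) := {y | y ∈ Pin G E ∨ (y ∈ Vt G E ∧ G.nx y ∈ Vt G E)}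

/-- The barrier does not pin `e`. -/
def Nw (G : TD J) (φ : Vx J → Vx J) (E : EJ J) (e : Vx J) : Prop :=
  (∃ n, φ^[n] e ∈ Sta G E) ∨ ¬ Per φ e

/-- The edge `e` pays once below. -/
def Pd (G : TD J) (E : EJ J) (e : Vx J) : Prop := e.1 ∈ E.Sk ∨ (e.1 ∈ E.Ps ∧ ¬ Chd G e)

/-- The edge `e` is monochromatic: forced, or the only sink of an odd row. -/
def Mon (G : TD J) (E : EJ J) (Y : TX J) (e : Vx J) : Prop :=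
  e.1 ∈ Y.Fm ∨ (Odd (G.nn (G.f e)) ∧ ∀ y ∈ G.L (G.f e), (y.1 ∈ E.Sk → y.1 = e.1) ∧ y.1 ∉ Y.Fm)

/-- The end `t` of the edge `e` pays below. -/
def Py (G : TD J) (E : EJ J) (Y : TX J) (e t : Vx J) : Prop :=
  Mon G E Y e ∨
  (t = e ∧ e ∈ Y.A ∧ (¬ Chd G e ∨ Y.jz = .d) ∧ (e ∈ Pin G E ∨ (e.1 ∈ E.Sk ∧ e.1 ∈ Y.Dl))) ∨
  (t = G.nx e ∧ G.nx e ∉ Y.A ∧ (¬ Chd G e ∨ (Y.jz ≠ .d ∧ e ∈ Y.A)) ∧
    (e ∈ Pin G E ∨ (e.1 ∈ E.Sk ∧ e.1 ∈ Y.Dr)))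

/-- Facts on the final plan `p` with the pins `P` (the pins of the record and the barrier). -/
structure PF (G : TD J) (φ : Vx J → Vx J) (E : EJ J) (Y : TX J) (P : Set (Vx J)) (p : PD J) :
    Prop where
  hp : PS (FT G) (XT G) G.Pr p (PQT G P (Vt G E) Y.x)
  pin : Pin G E ⊆ P
  bar : ∀ e ∈ P, e ∈ Pin G E ∨ ¬ Nw G φ E e
  nw : ∀ e ∈ G.LA, Nw G φ E e ∨ e ∉ P → SST G P Y.x e ⊆ SST G (Pin G E) Y.x e
  R : ∀ y ∈ G.LA, y ∈ Y.A → ¬ Chd G y ∨ Y.jz = .d → p.R (FT G) y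
  L : ∀ y ∈ G.LA, G.nx y ∉ Y.A → ¬ Chd G y ∨ (Y.jz ≠ .d ∧ y ∈ Y.A) → p.Lt (FT G) (G.nx y)
  dR : ∀ y ∈ G.LA, y ∈ Y.A → y ∈ P ∨ (y.1 ∈ E.Sk ∧ y.1 ∈ Y.Dl) → y.1 ∈ p.dn
  dL : ∀ y ∈ G.LA, G.nx y ∉ Y.A → y ∈ P ∨ (y.1 ∈ E.Sk ∧ y.1 ∈ Y.Dr) → (G.nx y).1 ∈ p.dn
  col : ∀ y ∈ G.LA, y.1 ∉ E.Sk → p.c (G.nx y).1 ≠ p.c y.1
  mon : ∀ y ∈ G.LA, Mon G E Y y → p.c y.1 = p.c (G.nx y).1
  dn : ∀ y ∈ G.LA, Pd G E y → p.Dn (FT G) y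
  py : ∀ y ∈ G.LA, ∀ t, Py G E Y y t → PayE (FT G) p y t

/-- Dynamic edges over strict edges pay below or solve their cells. -/
def DnS (G : TD J) (p : PD J) (q : PQ J) : Prop :=
  ∀ y ∈ G.LA, y ∉ q.St (FT G) → (q.S y).Nonempty → p.Dn (FT G) y ∨ SpT G p q y

/-- The edge `e` solves its cells in every final plan. -/
def Gen (G : TD J) (φ : Vx J → Vx J) (E : EJ J) (Y : TX J) (e : Vx J) : Prop :=
  ∀ P p, PF G φ E Y P p → SpT G p (PQT G P (Vt G E) Y.x) e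

/-- The kinds of special top edges over the strict edges `S`: free; static and paid once; static
with a prescribed payer; the same and not monochromatic; dynamic and paid once; a static sink over
two edges; a monochromatic edge with a visible right end over two edges; arbitrary. -/
def Spt (G : TD J) (φ : Vx J → Vx J) (E : EJ J) (Y : TX J) (S : Set (Sym2 (Vx J))) (e : Vx J) :
    Prop :=
  (e ∈ Sta G E ∧ ∃ T X' Q, S ⊆ T ∧ OutX G.Γ (Bd G e) T X' Q fun _ _ => True) ∨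
  (e ∈ Sta G E ∧ Pd G E e ∧ ∃ T o, S ⊆ T ∧ T ⊆ PE G.Γ (Bd G e).X ∧ Out G.Γ (Bd G e) T o) ∨
  (e ∈ Sta G E ∧ ∃ T X' Q t, S ⊆ T ∧ Py G E Y e t ∧
    OutX G.Γ (Bd G e) T X' Q fun c A => c e = c (G.nx e) ∨ t ∈ A) ∨
  (e ∈ Sta G E ∧ e.1 ∉ E.Sk ∧ ∃ T X' Q t, S ⊆ T ∧ Py G E Y e t ∧
    OutX G.Γ (Bd G e) T X' Q fun c A => c e ≠ c (G.nx e) ∧ t ∈ A) ∨
  (Pd G E e ∧ Nw G φ E e ∧ ∃ T, S ⊆ T ∧ ∀ M d u, DC G M d → M.us = {u} → (FT G).Cov u e →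
    T ⊆ PE G.Γ d.X ∧ ∃ o, Out G.Γ d T o) ∨
  ((∃ f ∈ PE G.Γ (Bd G e).X, ∃ f' ∈ PE G.Γ (Bd G e).X, S ⊆ {f, f'}) ∧
    ((e ∈ Sta G E ∧ e.1 ∈ E.Sk ∧ ¬ Chd G e ∧ e.1 ∉ Y.Dl ∧ e.1 ∉ Y.Dr) ∨
      (Mon G E Y e ∧ Even (G.f e) ∧ G.nx e ∈ Vt G E ∧ Nw G φ E e))) ∨
  ((e ∈ Sta G E ∨ Pd G E e) ∧ ∀ P p, PF G φ E Y P p → DnS G p (PQT G P (Vt G E) Y.x) →
    SpT G p (PQT G P (Vt G E) Y.x) e)

/-- The condition on the top edge `e`. -/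
def Top (G : TD J) (φ : Vx J → Vx J) (E : EJ J) (Y : TX J) (e : Vx J) : Prop :=
  SST G (Pin G E) Y.x e ⊆ ∅ ∨ (∃ f, SST G (Pin G E) Y.x e ⊆ {f} ∧ Pd G E e) ∨
    (∃ f f', SST G (Pin G E) Y.x e ⊆ {f, f'} ∧
      ((e.1 ∈ E.Sk ∧ e.1 ∈ E.Ps ∧ ¬ Chd G e) ∨ (e ∈ Sta G E ∧ Mon G E Y e))) ∨
    Gen G φ E Y e ∨ ∃ a, Spt G φ E Y (SST G (Pin G E) Y.x (tr a e)) (tr a e)

/-- A plan for the tail with the neck `z`. -/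
structure TK (G : TD J) (φ : Vx J → Vx J) (z : Vx J) (E : EJ J) (Y : TX J) : Prop where
  dis : ∀ i ∈ E.Sr, i ∉ E.Sk ∧ i ∉ E.Ps
  fm : ∀ i ∈ Y.Fm, i ∈ E.Sk
  dd : ∀ i ∈ Y.Dl, i ∉ Y.Dr
  ne : ∀ j, (∃ m ∈ G.L j, m.1 ∈ E.Sk ∧ m.1 ∉ Y.Fm) ∨ (Even (G.nn j) ∧ ∀ y ∈ G.L j, y.1 ∉ Y.Fm)
  ori : Ori (FT G) (ed E) Y.A
  pa : Y.x.a ∨ Y.jz = .a
  pb : Y.x.b ∨ Y.jv = .b ∨ Y.jz = .b
  pc : Y.x.c ∨ Y.jv = .c ∨ Y.jz = .c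
  pd : Y.x.d ∨ Y.jz = .d
  ear : G.xl z ≠ G.xr z → (G.xl z).1 ∉ E.Sr ∧ (Y.jz = .a → G.xl z ∈ Y.A) ∧
    (Y.jz = .d → G.xr z ∉ Y.A) ∧ (Y.jz = .b ∨ Y.jz = .c → Mon G E Y (G.xl z))
  kl : KeepL G (Pin G E) (Vt G E) Y.x
  kr : KeepR G (Pin G E) (Vt G E) Y.x
  top : ∀ e ∈ G.LA, Top G φ E Y e

end Pool.Agent.P.MP_08fd93_co.TT
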