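import Pool.Agent.P.MP_08fd93_co.FT.T3

/-! Frames with one orbit of short tails: a plan gives the colouring. -/

set_option autoImplicit false

namespace Pool.Agent.P.MP_08fd93_co.TT

open OV PkPrtP FB FE FZ FN FU FR FK FP2

variable {J : Type} {G : TD J} {φ : Vx J → Vx J} {v z la lb lc ld : Vx J} {E : EJ J} {Y : TX J}

/-- The left end of `e` can pay for the strict edges `S e`. -/
def LPay (G : TD J) (S : Vx J → Set (Sym2 (Vx J))) (e : Vx J) : Prop :=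
  ∃ f f' X' Q, S e ⊆ {f, f'} ∧ OutX G.Γ (Bd G e) {f, f'} X' Q fun c A => c e = c (G.nx e) ∨ e ∈ A

/-- The final plan for the pins of the record and the barrier `W`. -/
theorem TK.fin (h : TQ G v z la lb lc ld) (H : TK G φ z E Y) {W Dl : Set (Vx J)}
    (iW : ∀ a x, tr a x ∈ W ↔ x ∈ W) (nW : ∀ e, Nw G φ E e → e ∉ W)
    (sW : ∀ e ∈ G.LA, e ∉ W → SST G (Pin G E ∪ W) Y.x e ⊆ SST G (Pin G E) Y.x e)
    (iD : ∀ a, ∀ x ∈ Dl, tr a x ∈ Dl) (d1 : ∀ x : Vx J, x.1 ∈ Y.Dl → x ∈ Dl)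
    (d2 : ∀ x : Vx J, x.1 ∈ Y.Dr → x ∉ Dl) :
    ∃ p π, PF G φ E Y (Pin G E ∪ W) p ∧ StT G p π (Vt G E) Y.x ∧
      (∀ y ∈ G.LA, y ∈ W → p.Dn (FT G) y) ∧ ∀ y ∈ G.LA, y.1 ∈ E.Sk →
        (y ∈ Dl → y.1 ∈ p.dn) ∧ (y ∉ Dl → (G.nx y).1 ∈ p.dn) := by
  classical
  have st := h.st
  have hF := st.lay
  have R := h.rows
  have V := st.tf
  let P : Set (Vx J) := Pin G E ∪ W
  let D : ED J := ⟨{y | y.1 ∈ E.Sr}, {y | y.1 ∈ E.Sk}, {y | y.1 ∈ E.Sk ∧ y.1 ∉ Y.Fm},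
    {y | y.1 ∈ Y.Fm}, P, Dl⟩
  have ip : ∀ a x, tr a x ∈ P ↔ x ∈ P := fun a x =>
    or_congr (FK.inv_iff (fun a _ => pin_tr st a) a x) (iW a x)
  have hA : Ori (FT G) D Y.A := ⟨H.ori.inv, H.ori.snk, H.ori.snk', H.ori.pv, H.ori.nx⟩
  have hE : EOk2 (FT G) D := ⟨fun _ _ k => k, fun _ _ k => k, fun _ _ k => k, fun _ _ k => k,
    fun a x k => (ip a x).2 k, iD, fun x k => (H.dis _ k).1, fun _ k => k.1, fun _ k => H.fm _ k,
    fun j => or_iff_not_imp_left.2 fun q => ((H.ne j).resolve_left q).imp_right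
      fun k y a b => q ⟨y, a, b, k y a⟩, fun j s a t b c d e => ori_alt hF hA a b c d e⟩
  obtain ⟨⟨l0, -⟩, ⟨r0, -⟩, lr, -⟩ := h.feet
  have nx : G.xl z ≠ G.xr z → G.nx (G.xl z) = G.xr z := fun n =>
    (lr.resolve_left n.symm).symm
  let q := if Y.jz = .d then G.xr z else if G.xl z ∈ Y.A then G.xl z else G.xr z
  have q1 : Y.jz = .d → q = G.xr z := fun c => if_pos c
  have q2 : Y.jz ≠ .d → G.xl z ∈ Y.A → q = G.xl z := fun c c' => (if_neg c).trans (if_pos c')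
  have hq : G.xl z ≠ G.xr z → (q = G.xl z ∧ q ∈ Y.A) ∨ (q = G.xr z ∧ q ∉ Y.A) := fun n => by
    obtain ⟨a1, -, a2, -⟩ := H.ear n
    by_cases c : Y.jz = .d
    · exact Or.inr ⟨q1 c, q1 c ▸ a2 c⟩
    by_cases c' : G.xl z ∈ Y.A
    · exact Or.inl ⟨q2 c c', q2 c c' ▸ c'⟩
    · have : q = G.xr z := (if_neg c).trans (if_neg c')
      exact Or.inr ⟨this, this ▸ fun k => c' (hA.pv _ (R.la l0) a1 (nx n ▸ k))⟩
  obtain ⟨p, π, o0, hR, pl, kc, eo, pv, pz, cz⟩ := plan h hE hA (if Y.jv = .b then lb else lc)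
    (match Y.jz with | .a => la | .b => lb | .c => lc | _ => ld)
    (match Y.jz with | .a => G.xl z | .d => G.xr z | _ => v) q hq
  let p0 : PD J := ⟨p.c, o0, p.dn, p.cx, p.cls, p.kc⟩
  have h0 : RP2 (FT G) D Y.A p0.c p0.o p0.dn := hR
  have ne : p.c (G.xl z).1 ≠ p.c (G.xr z).1 → G.xl z ≠ G.xr z := fun n c => n (by rw [c])
  have ql : G.xl z ≠ G.xr z → q ∈ G.LA := fun n =>
    (hq n).elim (fun a => a.1 ▸ R.la l0) fun a => a.1 ▸ R.la r0
  have fR : ∀ y ∈ G.LA, y ∈ Y.A → ¬ Chd G y ∨ Y.jz = .d → p.R (FT G) y := fun y hy a b => by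
    refine (eo y hy (or_iff_not_imp_right.2 fun m c => ?_)).trans (hR.oR y hy a)
    have n := ne m
    have e := ((hq n).resolve_right fun k =>
      k.2 ((hA.inv _ q (ql n)).1 (orb_eq c ▸ a))).1
    exact b.elim (fun b => b (h.chd_iff.2 ⟨n, e ▸ c⟩)) fun b => n (e.symm.trans (q1 b))
  have fL : ∀ y ∈ G.LA, G.nx y ∉ Y.A → ¬ Chd G y ∨ (Y.jz ≠ .d ∧ y ∈ Y.A) →
      p.Lt (FT G) (G.nx y) := fun y hy a b => by
    have n1 := nx_la hF hy
    refine (FK.Lt_iff hF n1).2 ((eo _ n1 (or_iff_not_imp_right.2 fun m c => ?_)).trans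
      (hR.oL _ n1 a))
    have n := ne m
    have c : (G.nx y).1 = q.1 := c
    have e := ((hq n).resolve_left fun k => a (orb_eq c ▸ (hA.inv _ q (ql n)).2 k.2)).1
    have c' := (R.nx_orb hy (R.la l0)).1 (c.trans (by rw [nx n, e]))
    exact b.elim (fun b => b (h.chd_iff.2 ⟨n, c'⟩)) fun b => n ((q2 b.1
      ((hA.inv _ _ (R.la l0)).1 (orb_eq c' ▸ b.2))).symm.trans e)
  have tf : ∀ y ∈ G.LA, ¬ Chd G y → ∀ {a b : Prop}, (p0.R (FT G) y ∧ a) ∨
      (p0.Lt (FT G) (G.nx y) ∧ b) → (p.R (FT G) y ∧ a) ∨ (p.Lt (FT G) (G.nx y) ∧ b) :=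
    fun y hy n _ _ k => k.imp (fun k => ⟨fR y hy ((h0.R_iff hF hy).1 k.1) (Or.inl n), k.2⟩)
      fun k => ⟨fL y hy ((h0.Lt_iff' hF (nx_la hF hy)).1 k.1) (Or.inl n), k.2⟩
  have n0 : ∀ e ∈ Pin G E, e ∉ W := fun e a => nW e (nw_sta (sta_pin a))
  have dR : ∀ y ∈ G.LA, y ∈ Y.A → y ∈ P ∨ (y.1 ∈ E.Sk ∧ y.1 ∈ Y.Dl) → y.1 ∈ p.dn :=
    fun y hy a b => (hR.dR y hy a).2 (b.imp_right fun b => ⟨b.1, d1 y b.2⟩)
  have dL : ∀ y ∈ G.LA, G.nx y ∉ Y.A → y ∈ P ∨ (y.1 ∈ E.Sk ∧ y.1 ∈ Y.Dr) → (G.nx y).1 ∈ p.dn :=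
    fun y hy a b => (hR.dL y hy a).2 (b.imp_right fun b => ⟨b.1, d2 y b.2⟩)
  have mon : ∀ y ∈ G.LA, Mon G E Y y → p.c y.1 = p.c (G.nx y).1 := fun y hy m =>
    (m.elim (fun m => (hR.col y hy fun k => k.2 m).2 m) fun m =>
      (hR.mono_iff hF hy (fun w a b => (m.2 w a).1 b.1) fun w a => (m.2 w a).2).2 m.1).symm
  have hp : PS (FT G) (XT G) G.Pr p (PQT G P (Vt G E) Y.x) := by
    refine st.ps pl ip (FK.inv_iff fun a _ => vt_tr st a) (fun y hy n => Or.inr (tf y hy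
      (fun k => n (Or.inl (Or.inr k))) (h0.up hF hy (fun k => n (Or.inl (Or.inl (Or.inl k)))) n)))
      ?_ (vt_row h)
    rintro x ⟨_ | n, y, m, rfl⟩ hx
    · rcases m with ⟨g, a, b⟩ | ⟨k, hk, m⟩
      · exact Or.inl ⟨g, Or.inl a, b⟩
      · obtain ⟨a, b, -⟩ := V.mv k hk
        refine Or.inr (Or.inr ⟨G.md k, a, ?_⟩)
        rcases m with rfl | rfl
        exacts [⟨by rw [b, R.uw.lf _ _ (V.vl k hk).1, sub_add_cancel],
            (V.vl k hk).2.symm⟩,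
          ⟨by rw [b, R.uw.lf _ _ (V.vr k hk).1, sub_add_cancel],
            (V.vr k hk).2.symm⟩]
    · have m' : (FT G).an^[n] y ∈ Vt G E := ⟨n, y, m, rfl⟩
      exact Or.inr (Or.inl ⟨_, m', vt_la st m', by rw [Function.iterate_succ_apply']; rfl⟩)
  have sp : Y.jz = .b ∨ Y.jz = .c → p.c (G.xl z).1 = p.c (G.xr z).1 := fun k => by_contra fun m =>
    m (nx (ne m) ▸ mon _ (R.la l0) ((H.ear (ne m)).2.2.2 k))
  refine ⟨p, π, ⟨hp, Set.subset_union_left, fun e m => m.imp_right fun a b => nW e b a,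
    fun e he m => sW e he (m.elim (nW e) fun a b => a (Or.inr b)), fR, fL, dR, dL,
    fun y hy n c => n (H.fm _ ((hR.col y hy fun k => n k.1).1 c)), mon, fun y hy m => Or.inr ?_,
    fun y hy t m => ?_⟩, ⟨fun k hk => ?_, kc, fun e i => ?_, fun e i => ?_, fun e i => ?_,
    fun e i => ?_⟩, fun y hy m => Or.inr (tf y hy (fun k => n0 y (Or.inr k) m)
      (h0.down hF hy (fun k => n0 y (Or.inl (Or.inl k)) m) (Or.inr m))),
    fun y hy m => ⟨fun k => (h0.snk_dn hy m).1.2 (Or.inr k),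
      fun k => (h0.snk_dn hy m).2.2 (Or.inr k)⟩⟩
  · by_cases c : Chd G y
    · have s := m.resolve_right fun k => k.2 c
      have a := hA.snk y hy s
      have b := hA.snk' y hy s
      by_cases k : Y.jz = .d
      exacts [Or.inl ⟨fR y hy a (Or.inr k), dR y hy a (Or.inl (Or.inl (Or.inr c)))⟩,
        Or.inr ⟨fL y hy b (Or.inr ⟨k, a⟩), dL y hy b (Or.inl (Or.inl (Or.inr c)))⟩]
    · exact tf y hy c (m.elim (fun s => h0.snk_down hF hy s) fun s =>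
        h0.down hF hy (fun k => (H.dis _ k).2 s.1) (Or.inl (Or.inl (Or.inr s.1))))
  · exact m.imp (mon y hy) (Or.imp
      (fun ⟨a, b, c, d⟩ => ⟨a, fR y hy b c, dR y hy b (d.imp_left Or.inl)⟩)
      fun ⟨a, b, c, d⟩ => ⟨a, fL y hy b c, dL y hy b (d.imp_left Or.inl)⟩)
  · obtain ⟨t, -, t1, t2⟩ := vt_kid h (E := E)
    obtain ⟨c, m⟩ := h.k_tr hk
    refine ⟨_, vt_la st (vt_tr st c t1), vt_tr st c t1, ?_, hk⟩
    rw [V.atr, t2, h.md_v]
    exact m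
  · obtain ⟨c, rfl, n1, n2⟩ := h.isA i
    refine H.pa.imp_right fun k => ?_
    rw [n1, n2]
    by_cases m : p.c (G.xl z).1 = p.c (G.xr z).1
    · have := pz m c
      rw [k] at this
      exact Or.inr (Or.inl this)
    · exact Or.inl ((cz m).trans (by
        rw [q2 (by rw [k]; exact Jb.noConfusion) ((H.ear (ne m)).2.1 k)]
        rfl))
  · obtain ⟨c, rfl, n1, n2⟩ := h.isB i
    refine H.pb.imp_right fun k => Or.inr ?_
    rw [n1, n2]
    rcases k with k | k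
    · have := pv c
      rw [if_pos k] at this
      exact Or.inl this
    · have := pz (sp (Or.inl k)) c
      rw [k] at this
      exact Or.inr this
  · obtain ⟨c, rfl, n1, n2⟩ := h.isC i
    refine H.pc.imp_right fun k => Or.inr ?_
    rw [n1, n2]
    rcases k with k | k
    · have := pv c
      rw [if_neg (by rw [k]; exact Jb.noConfusion)] at this
      exact Or.inl this
    · have := pz (sp (Or.inr k)) c
      rw [k] at this
      exact Or.inr this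
  · obtain ⟨c, rfl, n1, n2⟩ := h.isD i
    refine H.pd.imp_right fun k => ?_
    rw [n1, n2]
    by_cases m : p.c (G.xl z).1 = p.c (G.xr z).1
    · have := pz m c
      rw [k] at this
      exact Or.inr (Or.inl this)
    · exact Or.inl ((cz m).trans (by
        rw [q1 k]
        rfl))

/-- The colouring from a plan. -/
theorem TK.col [Fintype J] (h : TQ G v z la lb lc ld) (hφ : PH (FT G) G.Pr φ)
    (H : TK G φ z E Y) : ∃ c, Col1 G.Γ ∅ c := by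
  classical
  have st := h.st
  have hF := st.lay
  have R := h.rows
  obtain ⟨W, rk, N, hw⟩ := pw_ex (A := (FT G).LA) (G := Sta G E) (φ := φ)
    (fun a x k => (hF.la_tr a x).2 k) (fun a _ k => sta_tr st a k) hφ.eqv
  let P : Set (Vx J) := Pin G E ∪ W
  let S0 := SST G (Pin G E) Y.x
  let Dl : Set (Vx J) := {x | x.1 ∈ Y.Dl ∨ (x.1 ∉ Y.Dr ∧ ∃ a, LPay G S0 (tr a x))}
  have iD : ∀ a, ∀ x ∈ Dl, tr a x ∈ Dl := fun a x k => k.imp_right (And.imp_right fun ⟨b, k⟩ =>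
    ⟨-a + b, by rwa [← tr_tr, tr_neg]⟩)
  have ss : ∀ e ∈ G.LA, ∀ f ∈ SST G P Y.x e, f ∈ S0 e ∨ ∃ g ∈ W, φ g = e ∧ f = s(g, G.nx g) := by
    rintro e he f ⟨m, ⟨g, g1 | g1, g2, rfl⟩ | k⟩
    exacts [Or.inl ⟨m, Or.inl ⟨g, g1, g2, rfl⟩⟩,
      Or.inr ⟨g, g1, ((st.und_iff hφ he g2).1 m).1, rfl⟩, Or.inl ⟨m, Or.inr k⟩]
  have nw : ∀ e ∈ G.LA, e ∉ W → SST G P Y.x e ⊆ S0 e := fun e he n f m =>
    (ss e he f m).resolve_right fun ⟨g, a, b, _⟩ => n (b ▸ hw.up g a)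
  have n0 : ∀ e ∈ Sta G E, e ∉ W := fun e a b => hw.ng e b a
  have n1 : ∀ e, Nw G φ E e → e ∉ W := fun e a b => by
    rcases a with ⟨n, a⟩ | a
    · refine n0 _ a ?_
      clear a
      induction n with
      | zero => exact b
      | succ n ih =>
        rw [Function.iterate_succ_apply']
        exact hw.up _ ih
    · exact a (PWR.per hφ hw b)
  obtain ⟨p, π, pf, stt, dW, dS⟩ := H.fin h hw.inv n1 nw iD (fun _ k => Or.inl k)
    fun x k m => m.elim (fun m => H.dd _ m k) fun m => m.1 k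
  have hp := pf.hp
  have s1 : ∀ y ∈ Sta G E, y ∈ (PQT G P (Vt G E) Y.x).St (FT G) := fun y k =>
    stT.2 (k.imp_left Or.inl)
  have dn : DnS G p (PQT G P (Vt G E) Y.x) := fun y hy n ⟨f, m⟩ => by
    have ns : ∀ a, tr a y ∉ Sta G E := fun a k => n (s1 y (sta_orb st k rfl))
    have pd : ∀ a, Pd G E (tr a y) → p.Dn (FT G) y := fun a k => pf.dn y hy (pd_orb st k rfl)
    rcases H.top y hy with k | ⟨_, -, k⟩ | ⟨_, _, -, k | k⟩ | k |
      ⟨a, k | k | k | k | k | ⟨-, k | k⟩ | k⟩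
    exacts [(k (nw y hy (fun q => n (stT.2 (Or.inl (Or.inr q)))) m)).elim, Or.inl (pf.dn y hy k),
      Or.inl (pf.dn y hy (Or.inl k.1)), (n (s1 y k.1)).elim, Or.inr (k P p pf), (ns a k.1).elim,
      (ns a k.1).elim, (ns a k.1).elim, (ns a k.1).elim, Or.inl (pd a k.1), (ns a k.1).elim,
      Or.inl (Or.inl (pf.mon y hy (mon_orb st k.1 rfl)).symm),
      Or.inl (pd a (k.1.resolve_left (ns a)))]
  have t2 : ∀ e ∈ G.LA, e ∈ P → e.1 ∈ E.Sk → ¬ Chd G e → ∀ f f', SST G P Y.x e ⊆ {f, f'} →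
      SpT G p (PQT G P (Vt G E) Y.x) e := fun e he m s n f f' sub =>
    have a := H.ori.snk e he s
    have b := H.ori.snk' e he s
    st.spt_t2 hp he (stT.2 (Or.inl m)) sub (Or.inr ⟨pf.R e he a (Or.inl n), pf.dR e he a (Or.inl m),
      pf.L e he b (Or.inl n), pf.dL e he b (Or.inl m)⟩)
  refine st.master hp stt (keepL_mono Set.subset_union_left H.kl)
    (keepR_mono Set.subset_union_left H.kr) hφ (fun y hy => ?_) fun e he => ?_
  · induction hn : rk y using Nat.strong_induction_on generalizing y with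
    | _ n ih =>
      by_cases k : y ∈ Sta G E
      · exact ⟨0, s1 y k⟩
      by_cases k' : y ∈ W
      · exact ⟨0, stT.2 (Or.inl (Or.inr k'))⟩
      obtain ⟨m, hm⟩ := ih _ (hn ▸ hw.lt y hy k k') _ (hφ.la hF hy) rfl
      exact ⟨m + 1, hm⟩
  have one : e ∈ W → ∃ w, ∀ f ∈ SST G P Y.x e, f ∈ S0 e ∨ f = w := fun k => by
    obtain ⟨w, w1, w2⟩ := hw.dn e k
    exact ⟨s(w, G.nx w), fun f m => (ss e he f m).imp_right fun ⟨y, y1, y2, y3⟩ =>
      hw.inj y y1 w w1 (y2.trans w2.symm) ▸ y3⟩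
  have z0 : ∀ {y}, SpT G p (PQT G P (Vt G E) Y.x) y →
      ∃ b, SpT G p (PQT G P (Vt G E) Y.x) (tr b y) := fun k => ⟨0, (tr_zero _).symm ▸ k⟩
  rcases H.top e he with k | ⟨f, k, s⟩ | ⟨f, f', k, s | s⟩ | k | ⟨a, k⟩
  · by_cases c : e ∈ W
    · obtain ⟨w, hw'⟩ := one c
      exact Or.inl (odT_one (f := w) (fun f m => (hw' f m).resolve_left fun q => k q) (dW e he c))
    · exact Or.inl (odT_none ((nw e he c).trans k))
  · by_cases c : e ∈ W
    · obtain ⟨w, hw'⟩ := one c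
      exact Or.inr (z0 (t2 e he (Or.inr c) (s.resolve_right fun q => n0 e (sta_pn (Or.inr q.1)) c)
        (fun q => n0 e (sta_pin (Or.inr q)) c) f w fun y m => (hw' y m).imp_left fun q => k q))
    · exact Or.inl (odT_one ((nw e he c).trans k) (pf.dn e he s))
  · exact Or.inr (z0 (t2 e he (Or.inl (Or.inl (Or.inr s.2.1))) s.1 s.2.2 f f'
      ((nw e he (n0 e (sta_pn (Or.inr s.2.1)))).trans k)))
  · exact Or.inr (z0 (st.spt_t2 hp he (s1 e s.1) ((nw e he (n0 e s.1)).trans k)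
      (Or.inl (pf.mon e he s.2))))
  · exact Or.inr (z0 (k P p pf))
  right
  have he' := (hF.la_tr a e).2 he
  suffices ∃ b, SpT G p (PQT G P (Vt G E) Y.x) (tr b (tr a e)) from
    this.elim fun b k => ⟨a + b, tr_tr b a e ▸ k⟩
  generalize tr a e = y at k he'
  rcases k with ⟨s, T, X', Q, b, O⟩ | ⟨s, m, T, o, b, c, O⟩ | ⟨s, T, X', Q, t, b, c, O⟩ |
    ⟨s, m, T, X', Q, t, b, c, O⟩ | ⟨m, n, T, b, c⟩ |
    ⟨⟨f, m1, f', m2, b⟩, ⟨s, m, c, c1, c2⟩ | ⟨m, ev, vs, n⟩⟩ | ⟨-, k⟩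
  · exact z0 (st.spt_free hp he' (s1 y s) ((nw y he' (n0 y s)).trans b) O)
  · exact z0 (st.spt_one hp he' (s1 y s) ((nw y he' (n0 y s)).trans b) O c (pf.dn y he' m))
  · exact z0 (st.spt_eb hp he' (s1 y s) ((nw y he' (n0 y s)).trans b) O (pf.py y he' t c))
  · exact z0 (st.spt_stat hp he' (s1 y s) ((nw y he' (n0 y s)).trans b)
      (sl_pr O (pf.py y he' t c) (pf.col y he' m).symm))
  · exact z0 (dyn st hp he' ((nw y he' (n1 y n)).trans b) (pf.dn y he' m) dn c)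
  · by_cases r : y ∈ Dl
    · obtain ⟨i, g, g', X', Q, b', O⟩ := (r.resolve_left c1).2
      have l := (hF.la_tr i y).2 he'
      have s' := sta_tr st i s
      exact ⟨i, st.spt_eb hp l (s1 _ s') ((nw _ l (n0 _ s')).trans b') O (Or.inr (Or.inl
        ⟨rfl, pf.R _ l (H.ori.snk _ l m) (Or.inl fun q => c (chd_orb st q rfl)),
          (dS _ l m).1 (iD i y r)⟩))⟩
    · obtain ⟨X', Q, t, rfl | rfl, O⟩ := st.eb_ex he' m1 m2
      · exact absurd (Or.inr ⟨c2, 0, f, f', X', Q, by rw [tr_zero]; exact ⟨b, O⟩⟩) r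
      · exact z0 (st.spt_eb hp he' (s1 y s) ((nw y he' (n0 y s)).trans b) O (Or.inr (Or.inr
          ⟨rfl, pf.L _ he' (H.ori.snk' _ he' m) (Or.inl c), (dS _ he' m).2 r⟩)))
  · exact z0 (rem st hp he' vs (fun w hw' q => Int.not_even_iff_odd.2 (h.odd q)
      ((st.tf.an_f hw' (st.pr _) q).symm ▸ ev)) ((nw y he' (n1 y n)).trans b) m1 m2
      (pf.mon y he' m) dn)
  · exact z0 (k P p pf dn)

end Pool.Agent.P.MP_08fd93_co.TT
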