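import Pool.Agent.P.MP_08fd93_co.FT.T1
import Pool.Agent.P.MP_08fd93_co.FP.L6

/-! Frames with one orbit of short tails: tools for the record of a plan. -/

set_option autoImplicit false

namespace Pool.Agent.P.MP_08fd93_co.TT

open OV PkPrtP FB FE FZ FN FU FR FK FP2

variable {J : Type} {G : TD J} {φ : Vx J → Vx J} {v z la lb lc ld e e' t k x y g s : Vx J}
  {f f' : Sym2 (Vx J)} {j : ℤ} {E : EJ J} {Y : TX J} {S : Set (Sym2 (Vx J))} {P : Set (Vx J)}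

/-! ### Orientations -/

section ori

variable {F : FD J} {X : XD J} {Pr A D : Set (Vx J)} {Q : ED J} (hF : Lay F X Pr)
include hF

theorem ori_gen (i1 : ∀ a, ∀ x ∈ Q.Src, tr a x ∈ Q.Src) (i2 : ∀ a, ∀ x ∈ Q.Snk, tr a x ∈ Q.Snk)
    (alt : ∀ j, ∀ s ∈ F.L j, ∀ s' ∈ F.L j, s ∈ Q.Snk → s' ∈ Q.Snk →
      F.ρ s < F.ρ s' → ∃ g ∈ F.L j, g ∈ Q.Src ∧ F.ρ s < F.ρ g ∧ F.ρ g < F.ρ s')
    (hD : Dir F Q D) : Ori F Q (AS F Q.Src Q.Snk ∪ D) := by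
  refine ⟨fun a v hv => or_congr ?_ (FK.inv_iff hD.inv a v), fun y hy h => Or.inl (as_snk hF hy h),
    fun y hy h => ?_, fun y hy h k => k.imp (as_pv hF hy h)
      (hD.row (F.f y) _ (hF.nx_mem hy).1 y hy), fun y hy h k => k.imp (as_nx hF hy h)
      (hD.row (F.f y) y hy (F.nx y) (hF.nx_mem (j := F.f y) hy).1)⟩
  · simp only [AS, Set.mem_ofPred_eq, sh_tr hF a hv, FK.inv_iff i1, FK.inv_iff i2]
  · rintro (⟨k, h1, h2⟩ | k)
    · obtain ⟨n1, n2, -⟩ := hF.nx_mem hy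
      obtain ⟨m1, m2⟩ := sh_mem hF (F.nx y) k
      rw [f_nx hF] at m1
      obtain ⟨g, g1, g2, g3, g4⟩ := alt (F.f y) y hy (FK.sh F (F.nx y) k) m1 h h1 (by omega)
      obtain ⟨k', rfl, e⟩ := sh_of_le hF n1 g1 (by omega)
      exact h2 k' (by omega) g2
    · exact hD.nsnk y (hD.row _ _ (hF.nx_mem hy).1 _ hy k) h

/-- the standard orientation; the rows named in `D` point to the right -/
theorem ori_dir (alt : ∀ j, ∀ s ∈ F.L j, ∀ s' ∈ F.L j, s.1 ∈ E.Sk → s'.1 ∈ E.Sk →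
      F.ρ s < F.ρ s' → ∃ g ∈ F.L j, g.1 ∈ E.Sr ∧ F.ρ s < F.ρ g ∧ F.ρ g < F.ρ s')
    (hD : Dir F (ed E) D) : Ori F (ed E) (AS F (ed E).Src (ed E).Snk ∪ D) :=
  ori_gen hF (Q := ed E) (fun _ _ k => k) (fun _ _ k => k) alt hD

theorem ori_std (alt : ∀ j, ∀ s ∈ F.L j, ∀ s' ∈ F.L j, s.1 ∈ E.Sk → s'.1 ∈ E.Sk →
      F.ρ s < F.ρ s' → ∃ g ∈ F.L j, g.1 ∈ E.Sr ∧ F.ρ s < F.ρ g ∧ F.ρ g < F.ρ s') :
    Ori F (ed E) (AS F (ed E).Src (ed E).Snk) := by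
  have := ori_dir hF alt Dir.empty
  rwa [Set.union_empty] at this

variable (h : Ori F Q A)
include h

/-- left of a vertex that points to the right, up to the next source -/
theorem ori_left (hy : y ∈ F.L j) (hs : s ∈ F.L j) (l : F.ρ y ≤ F.ρ s) (m : s ∈ A)
    (n : ∀ g ∈ F.L j, F.ρ y ≤ F.ρ g → F.ρ g < F.ρ s → g ∉ Q.Src) : y ∈ A := by
  have key : ∀ i : ℕ, F.ρ y ≤ F.ρ s - i → F.l j (F.ρ s - i) ∈ A := fun i => by
    induction i with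
    | zero => exact fun _ => by rwa [Nat.cast_zero, sub_zero, hF.l_rho hs]
    | succ i ih =>
      intro c
      push_cast at c ⊢
      have ml := hF.l_mem j (F.ρ s - (i + 1))
      refine h.pv _ (hF.la ml) (n _ ml (by rwa [hF.rho]) (by rw [hF.rho]; omega)) ?_
      rw [hF.nx_l, show F.ρ s - (i + 1) + 1 = F.ρ s - i by ring]
      exact ih (by omega)
  have := key (F.ρ s - F.ρ y).toNat (by omega)
  rwa [show F.ρ s - ((F.ρ s - F.ρ y).toNat : ℕ) = F.ρ y by omega, hF.l_rho hy] at this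

/-- up to the next sink, if no source lies between -/
theorem ori_rt (hy : y ∈ F.L j) (hs : s ∈ F.L j) (l : F.ρ y ≤ F.ρ s) (m : s ∈ Q.Snk)
    (n : ∀ g ∈ F.L j, F.ρ y ≤ F.ρ g → F.ρ g < F.ρ s → g ∉ Q.Src) : y ∈ A :=
  ori_left hF h hy hs l (h.snk s (hF.la hs) m) n

/-- after a sink, if no source lies between -/
theorem ori_lf (hy : y ∈ F.L j) (hs : s ∈ F.L j) (l : F.ρ s < F.ρ y) (m : s ∈ Q.Snk)
    (n : ∀ g ∈ F.L j, F.ρ s < F.ρ g → F.ρ g < F.ρ y → g ∉ Q.Src) : y ∉ A := fun c => by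
  obtain ⟨n1, n2, -⟩ := hF.nx_mem hs
  exact h.snk' s (hF.la hs) m (ori_left hF h n1 hy (by omega) c fun g a b => n g a (by omega))

theorem ori_alt (hs : s ∈ F.L j) (hy : y ∈ F.L j) (m : s ∈ Q.Snk) (m' : y ∈ Q.Snk)
    (l : F.ρ s < F.ρ y) : ∃ g ∈ F.L j, g ∈ Q.Src ∧ F.ρ s < F.ρ g ∧ F.ρ g < F.ρ y := by
  by_contra c
  exact ori_lf hF h hy hs l m (fun g a b d e => c ⟨g, a, e, b, d⟩) (h.snk y (hF.la hy) m')

/-- a row with one orbit of sources and a sink: the ends of a source point away from it -/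
theorem ori_one (i : ∀ a, ∀ x ∈ Q.Snk, tr a x ∈ Q.Snk) (hg : g ∈ F.L j) (hs : s ∈ F.L j)
    (m : s ∈ Q.Snk) (u : ∀ y ∈ F.L j, y ∈ Q.Src → y.1 = g.1) :
    F.nx g ∈ A ∧ g ∉ A := by
  obtain ⟨n1, n2, -⟩ := hF.nx_mem hg
  have n0 := hF.n2 j
  constructor
  · obtain ⟨c, c1, c2⟩ := window hF hs (F.ρ g + 1)
    have w := (hF.w_mem c hs).1
    refine ori_rt hF h n1 w (by omega) (i _ s m) fun y a b d e => ?_
    obtain ⟨r, -, q⟩ := same_cls hF hg a (u y a e).symm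
    rcases le_or_gt r 0 with o | o <;> nlinarith
  · obtain ⟨c, c1, c2⟩ := window hF hs (F.ρ g - F.nn j)
    have w := (hF.w_mem c hs).1
    refine ori_lf hF h hg w (by omega) (i _ s m) fun y a b d e => ?_
    obtain ⟨r, -, q⟩ := same_cls hF hg a (u y a e).symm
    rcases le_or_gt 0 r with o | o <;> nlinarith

end ori

/-! ### Pins, visible vertices and static edges -/

theorem pin_pn (m : e.1 ∈ E.Pn) : e ∈ Pin G E := Or.inl m

theorem pin_chd (m : Chd G e) : e ∈ Pin G E := Or.inr m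

theorem vt_en (hx : x ∈ En G E) : x ∈ Vt G E := ⟨0, x, hx, rfl⟩

theorem vt_pin (hg : g ∈ G.LA) (m : g ∈ Pin G E) : g ∈ Vt G E ∧ G.nx g ∈ Vt G E :=
  ⟨vt_en (Or.inl ⟨g, m, hg, Or.inl rfl⟩), vt_en (Or.inl ⟨g, m, hg, Or.inr rfl⟩)⟩

theorem vt_ft (hk : k ∈ G.V) : G.xl k ∈ Vt G E ∧ G.xr k ∈ Vt G E :=
  ⟨vt_en (Or.inr ⟨k, hk, Or.inl rfl⟩), vt_en (Or.inr ⟨k, hk, Or.inr rfl⟩)⟩

/-- the left foot of the parent of a visible vertex is visible -/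
theorem vt_an (hx : x ∈ Vt G E) : G.xl (G.an x) ∈ Vt G E :=
  let ⟨n, y, a, b⟩ := hx
  ⟨n + 1, y, a, by rw [Function.iterate_succ_apply', ← b]; rfl⟩

theorem vt_it (hx : x ∈ Vt G E) (n : ℕ) : (FT G).an^[n] x ∈ Vt G E :=
  let ⟨m, y, a, b⟩ := hx
  ⟨n + m, y, a, by rw [Function.iterate_add_apply, ← b]⟩

theorem sta_pin (m : e ∈ Pin G E) : e ∈ Sta G E := Or.inl m

theorem sta_pn (m : e.1 ∈ E.Pn) : e ∈ Sta G E := Or.inl (Or.inl m)

theorem nw_sta (m : e ∈ Sta G E) : Nw G φ E e := Or.inl ⟨0, m⟩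

theorem Top.spt (m : Spt G φ E Y (SST G (Pin G E) Y.x e) e) : Top G φ E Y e :=
  Or.inr (Or.inr (Or.inr (Or.inr ⟨0, (tr_zero e).symm ▸ m⟩)))

theorem Top.gen (m : Gen G φ E Y e) : Top G φ E Y e := Or.inr (Or.inr (Or.inr (Or.inl m)))

theorem spt_free (s : e ∈ Sta G E) {T : Set (Sym2 (Vx J))} (sub : S ⊆ T)
    (O : ∃ X' Q, OutX G.Γ (Bd G e) T X' Q fun _ _ => True) : Spt G φ E Y S e :=
  let ⟨X', Q, O⟩ := O
  Or.inl ⟨s, T, X', Q, sub, O⟩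

theorem sst_mono {P' : Set (Vx J)} {x : Fl} (m : P ⊆ P') : SST G P x e ⊆ SST G P' x e :=
  fun _ k => ⟨k.1, k.2.imp_left fun ⟨g, a, b⟩ => ⟨g, m a, b⟩⟩

theorem keepL_mono {P' Vs : Set (Vx J)} {x : Fl} (m : P ⊆ P') (k : KeepL G P Vs x) :
    KeepL G P' Vs x := fun s s' i a => (k s s' i a).imp_right
  (Or.imp_left (Or.imp_right (Or.imp_left fun ⟨g, a, b⟩ => ⟨g, m a, b⟩)))

theorem keepR_mono {P' Vs : Set (Vx J)} {x : Fl} (m : P ⊆ P') (k : KeepR G P Vs x) :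
    KeepR G P' Vs x := fun s s' i a => (k s s' i a).imp_right
  (Or.imp_left (Or.imp_right (Or.imp_left fun a => m a)))

section

variable (h : ST G)
include h

/-- the parent of a visible vertex is visible -/
theorem vt_an' (hx : x ∈ Vt G E) (n : G.an x ∉ G.V) : G.an x ∈ Vt G E :=
  (h.tf.xo _ n).1 ▸ vt_an hx

theorem ft_lev (hx : x ∈ G.L j) (n : ℕ) : (FT G).an^[n] x ∈ G.L (j - n) := by
  induction n with
  | zero => simpa using hx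
  | succ i ih =>
    rw [Function.iterate_succ_apply', Nat.cast_succ, ← sub_sub]
    exact h.lay.anL _ _ ih (h.pr _)

theorem vt_la (hx : x ∈ Vt G E) : x ∈ G.LA := by
  obtain ⟨n, y, a, rfl⟩ := hx
  have R := h.tf.toRows
  refine h.ft_la ?_ n
  rcases a with ⟨g, -, hg, rfl | rfl⟩ | ⟨k, hk, rfl | rfl⟩
  exacts [hg, R.la (R.nx_mem hg).1, R.la (h.tf.vl k hk).1, R.la (h.tf.vr k hk).1]

theorem chd_tr (a : ℤ × ℤ) (m : Chd G g) : Chd G (tr a g) := by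
  obtain ⟨k, hk, rfl, n⟩ := m
  refine ⟨tr a k, h.tf.vtr a k hk, (h.tf.xtr a k).1.symm, ?_⟩
  rw [(h.tf.xtr a k).1, (h.tf.xtr a k).2.1]
  exact fun c => n (tr_inj a c)

theorem chd_orb (m : Chd G g) (q : y.1 = g.1) : Chd G y := orb_eq q ▸ chd_tr h _ m

theorem pin_tr (a : ℤ × ℤ) (m : g ∈ Pin G E) : tr a g ∈ Pin G E := m.imp_right (chd_tr h a)

theorem pin_orb (m : g ∈ Pin G E) (q : y.1 = g.1) : y ∈ Pin G E := orb_eq q ▸ pin_tr h _ m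

theorem vt_tr (a : ℤ × ℤ) (hx : x ∈ Vt G E) : tr a x ∈ Vt G E := by
  obtain ⟨n, y, m, rfl⟩ := hx
  refine ⟨n, tr a y, ?_, (h.ft_tr a y n).symm⟩
  rcases m with ⟨g, m, hg, e⟩ | ⟨k, hk, e⟩
  · refine Or.inl ⟨tr a g, pin_tr h a m, (h.lay.la_tr a g).2 hg, ?_⟩
    rw [h.tf.toRows.nx_tr a hg]
    exact e.imp (congrArg _) (congrArg _)
  · refine Or.inr ⟨_, h.tf.vtr a k hk, ?_⟩
    rw [(h.tf.xtr a k).1, (h.tf.xtr a k).2.1]
    exact e.imp (congrArg _) (congrArg _)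

theorem vt_orb (hx : x ∈ Vt G E) (q : y.1 = x.1) : y ∈ Vt G E := orb_eq q ▸ vt_tr h _ hx

theorem sta_tr (a : ℤ × ℤ) (hx : x ∈ Sta G E) : tr a x ∈ Sta G E :=
  hx.imp (pin_tr h a) fun k => ⟨vt_tr h a k.1, by
    rw [h.tf.toRows.nx_tr a (vt_la h k.1)]
    exact vt_tr h a k.2⟩

theorem sta_orb (hx : x ∈ Sta G E) (q : y.1 = x.1) : y ∈ Sta G E := orb_eq q ▸ sta_tr h _ hx

theorem pd_orb (m : Pd G E x) (q : y.1 = x.1) : Pd G E y :=
  m.imp (fun k => q ▸ k) fun k => ⟨q ▸ k.1, fun c => k.2 (chd_orb h c q.symm)⟩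

theorem mon_orb (m : Mon G E Y x) (q : y.1 = x.1) : Mon G E Y y := by
  refine m.imp (fun k => q ▸ k) fun k => ?_
  obtain ⟨a, rfl⟩ : ∃ a, y = tr a x := ⟨_, orb_eq q⟩
  refine ⟨?_, fun w hw => ?_⟩
  · rw [h.tf.toRows.wp.per]
    exact (nn_tr h.lay a (G.f x)).symm ▸ k.1
  · obtain ⟨w, rfl⟩ := tr_surj a w
    exact k.2 w ((h.lay.l_tr a x w).1 hw)

/-- an edge between two vertices of a pinned pair of neighbours is static -/
theorem sta_btw (he : e ∈ G.LA) (m : (pv (FT G) e).1 ∈ E.Pn) (m' : (G.nx e).1 ∈ E.Pn) :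
    e ∈ Sta G E := by
  obtain ⟨a, -, b⟩ := pv_mem h.lay he
  exact Or.inr ⟨b ▸ (vt_pin (h.lay.la a) (pin_pn m)).2,
    (vt_pin (nx_la h.lay he) (pin_pn m')).1⟩

/-- a static edge over a good edge -/
theorem spt_k1 (he : e ∈ G.LA) (s : e ∈ Sta G E) (sub : S ⊆ {f}) (m : f ∈ PE G.Γ (Bd G e).X)
    (n : ¬ ExT G e f) : Spt G φ E Y S e :=
  spt_free s sub (outX_k1 h.lay.fine.pl (all_T _ _ h.lay.fine.pl) (h.bd_disc he) (h.bd_st he) m
    fun z b => n ⟨z, b⟩)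

/-- a rung from the left end of a static edge to a vertex right of the strict edge -/
theorem spt_sep (he : e ∈ G.LA) (s : e ∈ Sta G E) (sub : S ⊆ {f}) (m : f ∈ PE G.Γ (Bd G e).X)
    (ht : t ∈ (Bd G e).X) (a : G.Γ.Adj e t) (k : ∀ x ∈ f, (Bd G e).ρ x ≤ (Bd G e).ρ t) :
    Spt G φ E Y S e :=
  spt_free s sub (ox_sep (all_T _ _ h.lay.fine.pl) (h.bd_disc he) (h.bd_st he) m ht a k)

/-- a rung from the right end of a static edge to a vertex left of the strict edge -/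
theorem spt_sep' (he : e ∈ G.LA) (s : e ∈ Sta G E) (sub : S ⊆ {f}) (m : f ∈ PE G.Γ (Bd G e).X)
    (ht : t ∈ (Bd G e).X) (a : G.Γ.Adj (G.nx e) t) (k : ∀ x ∈ f, (Bd G e).ρ t ≤ (Bd G e).ρ x) :
    Spt G φ E Y S e :=
  spt_free s sub (ox_sep' (all_T _ _ h.lay.fine.pl) (h.bd_disc he) (h.bd_st he) m ht a k)

/-- an edge that pays once over two edges in the span of one vertex -/
theorem spt_sp (pd : Pd G E e) (n : Nw G φ E e) (sub : S ⊆ {f, f'}) (sp : SpanT G e f f') :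
    Spt G φ E Y S e := by
  refine Or.inr (Or.inr (Or.inr (Or.inr (Or.inl ⟨pd, n, _, sub, fun M d u hd hu c => ?_⟩))))
  have mu : u ∈ M.us := hu ▸ rfl
  obtain ⟨m, m', w, hw, a, ha, b, hb, wa, wb, r⟩ := sp
  have sb : (Bd G e).X ⊆ d.X := hd.bt h mu c
  refine ⟨by rintro _ (rfl | rfl); exacts [PE.mono sb m, PE.mono sb m'],
    FS.sp h.lay.fine.pl (all_T _ _ h.lay.fine.pl) hd.mc.disc
      (hw.elim (fun k => Or.inl (hd.bI h mu c k)) (hd.bY h mu c)) (sb ha) (sb hb) wa wb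
      (PE.mono sb m) (PE.mono sb m') fun y k => ?_⟩
  have := k.elim (PE.ends m) (PE.ends m')
  exact ⟨hd.ord_le h mu c ha this (r y k).1, hd.ord_le h mu c this hb (r y k).2⟩

variable (hφ : PH (FT G) G.Pr φ)
include hφ

theorem pe_row (hg : g ∈ G.LA) (m : φ g = e) (n : ¬ Chd G g) :
    s(g, G.nx g) ∈ PE G.Γ (Bd G e).X :=
  (h.und_iff hφ (m ▸ hφ.la h.lay hg) hg).2 ⟨m, n⟩

/-- the barrier avoids `e` if the periodic edge under `e` is static -/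
theorem nw_of (he : e ∈ G.LA) (k : ∀ g ∈ G.LA, φ g = e → Per φ g → g ∈ Sta G E) :
    Nw G φ E e := by
  refine or_iff_not_imp_right.2 fun q => ?_
  obtain ⟨g, a, b, c, n, m⟩ := Per.pre h.lay hφ he (not_not.1 q)
  exact ⟨n, sta_orb h (k g a b c) m⟩

theorem nw_orb (he : e ∈ G.LA) (n : Nw G φ E e) (q : e'.1 = e.1) : Nw G φ E e' := by
  have he' : e' ∈ G.LA := orb_eq q ▸ (h.lay.la_tr _ e).2 he
  exact n.imp (fun ⟨i, m⟩ => ⟨i, sta_orb h m (PH.it_fst h.lay hφ he' q i)⟩)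
    fun m c => m (Per.orb h.lay hφ he' q c)

end

section

variable (h : TQ G v z la lb lc ld)
include h

theorem vt_feet : G.xl z ∈ Vt G E ∧ G.xr z ∈ Vt G E := vt_ft h.zV

/-- a child of the head is visible -/
theorem vt_kid : ∃ t ∈ G.L 1, t ∈ Vt G E ∧ G.an t = v := by
  obtain ⟨n, c, m⟩ := h.kid _ h.feet.1.1 h.feet.1.2
  have a := vt_tr h.st (-c) (vt_it (vt_feet h (E := E)).1 n)
  have b : G.an (tr (-c) ((FT G).an^[n] (G.xl z))) = v := by rw [h.st.tf.atr, m, tr_neg]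
  exact ⟨_, h.nk_l (vt_la h.st a) (by rw [TD.nk, b, h.mv]), a, b⟩

theorem vt_row (j : ℤ) : ∃ t ∈ G.L j, t ∈ Vt G E := by
  have hF := h.st.lay
  obtain ⟨b, b0, -⟩ := hF.gen
  have a1 := le_abs_self j
  have a0 := abs_nonneg j
  obtain ⟨n, hn⟩ := Int.eq_ofNat_of_zero_le (show 0 ≤ |j| * (FT G).η b - j by nlinarith)
  refine ⟨_, ?_, vt_tr h.st (|j| • b) (vt_it (vt_feet h).1 n)⟩
  have := (hF.ltr (|j| • b) _ _).2 (ft_lev h.st h.feet.1.1 n)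
  rwa [map_zsmul, smul_eq_mul, ← hn, show 0 - (|j| * (FT G).η b - j) + |j| * (FT G).η b = j by
    ring] at this

/-- The edge from the neck to the head is free in the fan that begins at a visible vertex. -/
theorem gen_fanB (i : IsB G e) (n : G.an e = G.nk (G.nx e)) (ve : e ∈ Vt G E)
    (a : G.Γ.Adj e (G.an (G.nx e))) : Gen G φ E Y e := by
  intro P p _ M d u hd hu o c
  have st := h.st
  have R := h.rows
  have mu : u ∈ M.us := hu ▸ rfl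
  have nv : ∀ t ∈ M.us, (PQT G P (Vt G E) Y.x).Nv (FT G) t := fun t ht => by
    rw [hu] at ht
    exact ht ▸ o.nv
  obtain ⟨e1, e2, e3⟩ := hd.rng st mu c
  obtain ⟨n1, n2, -⟩ := R.nx_mem e1
  have es : M.s = e := R.inj hd.hM.hs e1 (le_antisymm e2
    ((vis_out st.lay hd.hM nv e1 ve (st.pr _)).resolve_right (not_le.2 e3)))
  obtain ⟨b, -, b1, b2⟩ := h.isB i
  obtain ⟨t, -, t1, t2⟩ := vt_kid h (E := E)
  have t3 : G.an (tr b t) = G.an (G.nx e) := by rw [st.tf.atr, t2, b1]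
  obtain ⟨t4, t5⟩ := st.isB_le i (vt_la st (vt_tr st b t1)) t3
  rw [R.uw.lf _ _ e1] at t4
  have t6 : G.ρ M.s' ≤ G.ρ (tr b t) := (vis_out st.lay hd.hM nv t4 (vt_tr st b t1)
    (st.pr _)).resolve_left (show ¬ G.ρ _ ≤ G.ρ _ by omega)
  have eb : G.an M.s' = G.an (G.nx e) := st.tf.head (st.tf.btw_an n1 (st.pr _) hd.hM.hs' (st.pr _)
    t4 (st.pr _) (show G.ρ _ ≤ G.ρ _ by omega) t6 t3.symm (st.tf.hd_adj i.2.1).1) i.2.1
  have eX : d.X = {G.nk (G.nx e), G.an (G.nx e)} := by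
    rw [hd.eX, tbt_pair, es, n, eb]
    rw [es, TD.nk, TD.nk, n, eb, TD.nk, st.tf.mm]
  have m : s(G.an (G.nx e), G.nk (G.nx e)) ∈ PE G.Γ d.X :=
    mem_PE.2 ⟨eX ▸ Or.inr rfl, eX ▸ Or.inl rfl, (st.tf.hd_adj i.2.1).2⟩
  refine (FP.sl_fan (t := G.an (G.nx e)) st.lay hd.hM hd.mc hu m (eX ▸ Or.inr rfl)
    (by rw [es]; exact a) fun y k => ?_).mono ?_ (Set.empty_subset _)
  · rw [← eb, ← hd.eb]
    exact hd.mc.disc.px.hi y (PE.ends m k)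
  · rintro f ⟨u', hu', y, c', k⟩
    obtain ⟨r, r1, r', r2, r3, rfl⟩ := PE.mono (hd.bt st hu' c') k.1
    rw [eX] at r1 r2
    rcases r1 with rfl | rfl <;> rcases r2 with rfl | rfl
    exacts [absurd rfl r3.ne, Sym2.eq_swap, rfl, absurd rfl r3.ne]

/-- The edge from the head to the neck is free in the fan that ends at a visible vertex. -/
theorem gen_fanC (i : IsC G e) (n : G.an (G.nx e) = G.nk e) (ve : G.nx e ∈ Vt G E)
    (a : G.Γ.Adj (G.nx e) (G.an e)) : Gen G φ E Y e := by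
  intro P p _ M d u hd hu o c
  have st := h.st
  have R := h.rows
  have mu : u ∈ M.us := hu ▸ rfl
  have nv : ∀ t ∈ M.us, (PQT G P (Vt G E) Y.x).Nv (FT G) t := fun t ht => by
    rw [hu] at ht
    exact ht ▸ o.nv
  obtain ⟨e1, e2, e3⟩ := hd.rng st mu c
  obtain ⟨n1, n2, -⟩ := R.nx_mem e1
  have es : M.s' = G.nx e := R.inj hd.hM.hs' n1 (le_antisymm
    ((vis_out st.lay hd.hM nv n1 ve (st.pr _)).resolve_left (show ¬ G.ρ _ ≤ G.ρ _ by omega))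
    (show G.ρ _ ≤ G.ρ _ by omega))
  obtain ⟨b, -, b1, b2⟩ := h.isC i
  obtain ⟨t, -, t1, t2⟩ := vt_kid h (E := E)
  have t3 : G.an (tr b t) = G.an e := by rw [st.tf.atr, t2, b1]
  obtain ⟨t4, t5⟩ := st.isC_ge i (vt_la st (vt_tr st b t1)) t3
  rw [R.uw.lf _ _ e1] at t4
  have t6 : G.ρ (tr b t) ≤ G.ρ M.s := (vis_out st.lay hd.hM nv t4 (vt_tr st b t1)
    (st.pr _)).resolve_right (show ¬ G.ρ _ ≤ G.ρ _ by omega)
  have ea : G.an M.s = G.an e := st.tf.head (t3 ▸ st.tf.btw_an t4 (st.pr _) hd.hM.hs (st.pr _)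
    e1 (st.pr _) t6 e2 t3 (t3 ▸ (st.tf.hd_adj i.2.1).1)) i.2.1
  have eX : d.X = {G.an e, G.nk e} := by
    rw [hd.eX, tbt_pair, es, n, ea]
    rw [es, TD.nk, TD.nk, n, ea, TD.nk, st.tf.mm]
  have m : s(G.an e, G.nk e) ∈ PE G.Γ d.X :=
    mem_PE.2 ⟨eX ▸ Or.inl rfl, eX ▸ Or.inr rfl, (st.tf.hd_adj i.2.1).2⟩
  refine (FP.sl_fan' (t := G.an e) st.lay hd.hM hd.mc hu m (eX ▸ Or.inl rfl)
    (by rw [es]; exact a) fun y k => ?_).mono ?_ (Set.empty_subset _)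
  · rw [← ea, ← hd.ea]
    exact hd.mc.disc.px.lo y (PE.ends m k)
  · rintro f ⟨u', hu', y, c', k⟩
    obtain ⟨r, r1, r', r2, r3, rfl⟩ := PE.mono (hd.bt st hu' c') k.1
    rw [eX] at r1 r2
    rcases r1 with rfl | rfl <;> rcases r2 with rfl | rfl
    exacts [absurd rfl r3.ne, rfl, Sym2.eq_swap, absurd rfl r3.ne]

variable (hφ : PH (FT G) G.Pr φ)
include hφ

/-- the strict edges under `e` -/
theorem ss_sub {x : Fl} (he : e ∈ G.LA)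
    (h1 : ∀ g ∈ G.LA, g.1 ∈ E.Pn → ¬ Chd G g → φ g = e → s(g, G.nx g) ∈ S)
    (ha : x.a → ∀ c, e = tr c la → s(tr c z, tr c (G.xl z)) ∈ S)
    (hb : x.b → ∀ c, e = tr c lb → s(tr c v, tr c z) ∈ S)
    (hc : x.c → ∀ c, e = tr c lc → s(tr c v, tr c z) ∈ S)
    (hd : x.d → ∀ c, e = tr c ld → s(tr c z, tr c (G.xr z)) ∈ S) : SST G (Pin G E) x e ⊆ S := by
  intro f m
  rcases (h.ss_iff hφ he).1 m with ⟨g, g1, g2, g3, g4, rfl⟩ |
    ⟨c, ⟨r, q, rfl⟩ | ⟨r, q, rfl⟩ | ⟨r, q, rfl⟩ | ⟨r, q, rfl⟩⟩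
  exacts [h1 g g2 (g1.resolve_right g4) g4 g3, ha r c q, hb r c q, hc r c q, hd r c q]

/-- the strict edges under an edge that lies over no edge of the tail -/
theorem ss_row {x : Fl} (he : e ∈ G.LA) (n : e.1 ≠ la.1 ∧ e.1 ≠ lb.1 ∧ e.1 ≠ lc.1 ∧ e.1 ≠ ld.1)
    (h1 : ∀ g ∈ G.LA, g.1 ∈ E.Pn → ¬ Chd G g → φ g = e → s(g, G.nx g) ∈ S) :
    SST G (Pin G E) x e ⊆ S :=
  ss_sub h hφ he h1 (fun _ _ q => absurd (by rw [q]; rfl) n.1)
    (fun _ _ q => absurd (by rw [q]; rfl) n.2.1) (fun _ _ q => absurd (by rw [q]; rfl) n.2.2.1)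
    fun _ _ q => absurd (by rw [q]; rfl) n.2.2.2

theorem sst_tr {x : Fl} (a : ℤ × ℤ) (he : e ∈ G.LA) (m : f ∈ SST G (Pin G E) x e) :
    f.map (tr a) ∈ SST G (Pin G E) x (tr a e) := by
  rw [h.ss_iff hφ ((h.st.lay.la_tr a e).2 he)]
  rcases (h.ss_iff hφ he).1 m with ⟨g, g1, g2, g3, g4, rfl⟩ | ⟨c, q⟩
  · refine Or.inl ⟨tr a g, pin_tr h.st a g1, (h.st.lay.la_tr a g).2 g2, ?_,
      fun c => g4 (chd_orb h.st c rfl), ?_⟩
    · rw [hφ.eqv a g g2, g3]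
    · rw [Sym2.map_mk, h.rows.nx_tr a g2]
  · refine Or.inr ⟨c + a, ?_⟩
    simp only [← tr_tr]
    rcases q with ⟨r, rfl, rfl⟩ | ⟨r, rfl, rfl⟩ | ⟨r, rfl, rfl⟩ | ⟨r, rfl, rfl⟩
    exacts [Or.inl ⟨r, rfl, rfl⟩, Or.inr (Or.inl ⟨r, rfl, rfl⟩),
      Or.inr (Or.inr (Or.inl ⟨r, rfl, rfl⟩)), Or.inr (Or.inr (Or.inr ⟨r, rfl, rfl⟩))]

/-- the condition on a top edge holds on its orbit -/
theorem Top.orb (he : e ∈ G.LA) (q : e'.1 = e.1) (m : Top G φ E Y e)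
    (gn : Gen G φ E Y e → Gen G φ E Y e') : Top G φ E Y e' := by
  obtain ⟨a, rfl⟩ : ∃ a, e' = tr a e := ⟨_, orb_eq q⟩
  have key : ∀ f ∈ SST G (Pin G E) Y.x (tr a e),
      ∃ f' ∈ SST G (Pin G E) Y.x e, f = f'.map (tr a) := fun f m => by
    have := sst_tr h hφ (-a) ((h.st.lay.la_tr a e).2 he) m
    rw [tr_neg] at this
    refine ⟨_, this, ?_⟩
    rw [Sym2.map_map, show tr a ∘ tr (-a) = (id : Vx J → Vx J) from funext (tr_neg' a), Sym2.map_id]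
    rfl
  rcases m with m | ⟨f, m, r⟩ | ⟨f, f', m, r⟩ | m | ⟨b, m⟩
  · exact Or.inl fun f k => let ⟨_, k', _⟩ := key f k; (m k').elim
  · refine Or.inr (Or.inl ⟨f.map (tr a), fun f0 k => ?_, pd_orb h.st r rfl⟩)
    obtain ⟨f1, k', rfl⟩ := key f0 k
    exact congrArg _ (m k')
  · refine Or.inr (Or.inr (Or.inl ⟨f.map (tr a), f'.map (tr a), fun f0 k => ?_, r.imp
      (fun r => ⟨r.1, r.2.1, fun c => r.2.2 (chd_orb h.st c rfl)⟩)
      fun r => ⟨sta_tr h.st a r.1, mon_orb (x := e) h.st r.2 rfl⟩⟩))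
    obtain ⟨f1, k', rfl⟩ := key f0 k
    exact (m k').imp (congrArg _) (congrArg _)
  · exact Top.gen (gn m)
  · refine Or.inr (Or.inr (Or.inr (Or.inr ⟨-a + b, ?_⟩)))
    rwa [← tr_tr, tr_neg]

end

end Pool.Agent.P.MP_08fd93_co.TT
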