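import Pool.Agent.P.MP_08fd93_co.FR.Root2

/-! Depth one, all ears: there is no transitive triangle. -/

set_option autoImplicit false

namespace Pool.Agent.P.MP_08fd93_co.FR

open OV FZ PkDNP

variable {J : Type} {Γ : SimpleGraph (Vx J)} {η : ℤ × ℤ →+ ℤ} {f : Vx J → ℤ}
  {v x y z u s m t p : Vx J}

theorem Ear.two (E : Ear Γ η x) (h1 : Sg Γ η y x) (h2 : Sg Γ η z x) (n : y ≠ z)
    (k : Sg Γ η u x) : u = y ∨ u = z := by
  obtain ⟨a, b, -, E⟩ := E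
  rcases (E _).1 h1 with rfl | rfl <;> rcases (E _).1 h2 with rfl | rfl
  exacts [absurd rfl n, (E _).1 k, ((E _).1 k).symm, absurd rfl n]

theorem AllEar.neg (H : D1 Γ η) (A : AllEar Γ η) : AllEar Γ (-η) := by
  rintro x ⟨y, hy⟩
  have := A x (((sg_neg H).1 hy).inn H)
  exact ⟨this.2, by rw [neg_neg]; exact this.1⟩

/-- the outgoing edges: a second one, adjacent, and no third one -/
theorem AllEar.out2 (H : D1 Γ η) (A : AllEar Γ η) (h : Sg Γ η x y) :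
    ∃ z, Γ.Adj y z ∧ Sg Γ η x z ∧ ∀ u, Sg Γ η x u → u = y ∨ u = z := by
  have E := (A x (h.inn H)).2
  obtain ⟨z, n, hz⟩ := (A.noSpike H).out H h
  exact ⟨z, (E.adj (h.rev H) (hz.rev H)).resolve_left n, hz,
    fun u k => E.two (h.rev H) (hz.rev H) n.symm (k.rev H)⟩

/-- the incoming edges: a second one, adjacent, and no third one -/
theorem AllEar.in2 (H : D1 Γ η) (A : AllEar Γ η) (h : Sg Γ η y x) :
    ∃ z, Γ.Adj y z ∧ Sg Γ η z x ∧ ∀ u, Sg Γ η u x → u = y ∨ u = z := by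
  have E := (A x ⟨y, h⟩).1
  obtain ⟨z, n, hz⟩ := (A.noSpike H).inn h
  exact ⟨z, (E.adj h hz).resolve_left n, hz, fun u k => E.two h hz n.symm k⟩

/-- a transitive triangle continues backwards -/
theorem AllEar.trn (H : D1 Γ η) (A : AllEar Γ η) (h1 : Sg Γ η s m) (h2 : Sg Γ η m t)
    (h3 : Sg Γ η s t) (h4 : Sg Γ η p m) (n : p ≠ s) : Sg Γ η p s := by
  obtain ⟨f, hf⟩ := H.exists_h t
  have R := RH.of H hf rfl
  have E := (A m ⟨s, h1⟩).1
  obtain ⟨r, e, hr⟩ := R.nb_par h2.1.symm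
  rw [R.inn h2, zero_sub] at hr
  have f0 := R.inn h3
  rcases E.two h1 h4 n.symm (R.par_sg h2 e hr) with rfl | rfl
  · omega
  · exact R.par_sg h3 ((E.adj h1 h4).resolve_left n) hr

theorem AllEar.strip (H : D1 Γ η) (A : AllEar Γ η) (h1 : Sg Γ η s m) (h2 : Sg Γ η m t)
    (h3 : Sg Γ η s t) : ∃ a : ℕ → Vx J, a 1 = m ∧ a 2 = s ∧
      ∀ i, Sg Γ η (a (i + 1)) (a i) ∧ Sg Γ η (a (i + 2)) (a i) := by
  have st : ∀ q : {q : Vx J × Vx J × Vx J //
      Sg Γ η q.2.2 q.2.1 ∧ Sg Γ η q.2.1 q.1 ∧ Sg Γ η q.2.2 q.1},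
      ∃ r : {q : Vx J × Vx J × Vx J //
        Sg Γ η q.2.2 q.2.1 ∧ Sg Γ η q.2.1 q.1 ∧ Sg Γ η q.2.2 q.1},
        r.1.1 = q.1.2.1 ∧ r.1.2.1 = q.1.2.2 := by
    rintro ⟨⟨t, m, s⟩, h1, h2, h3⟩
    obtain ⟨p, n, hp⟩ := (A.noSpike H).inn h1
    exact ⟨⟨(m, s, p), A.trn H h1 h2 h3 hp n, h1, hp⟩, rfl, rfl⟩
  choose g g1 g2 using st
  refine ⟨fun i => (g^[i] ⟨(t, m, s), h1, h2, h3⟩).1.1, g1 _, (g1 _).trans (g2 _), fun i => ?_⟩
  have k := (g^[i] ⟨(t, m, s), h1, h2, h3⟩).2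
  simp only [Function.iterate_succ_apply', g1, g2]
  exact k.2

/-- There is no transitive triangle. -/
theorem AllEar.nt (H : D1 Γ η) (hN : Nrm (OV.DL Γ)) (A : AllEar Γ η) (h1 : Sg Γ η s m)
    (h2 : Sg Γ η m t) : ¬ Sg Γ η s t := by
  intro h3
  obtain ⟨a, a1, a2, ha⟩ := A.strip H h1 h2 h3
  have two : ∀ i u, Sg Γ η u (a i) → u = a (i + 1) ∨ u = a (i + 2) := fun i u k =>
    (A _ ⟨u, k⟩).1.two (ha i).1 (ha i).2 (ha (i + 1)).1.1.ne' k
  obtain ⟨e, b, hb⟩ := h1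
  have w := H.wit e hb
  have dx : ∀ y, Γ.dist (tr (-b) m) y = Γ.dist m (tr b y) := fun y => by
    rw [← H.fine.dist_tr b, tr_neg']
  have key : ∀ n i, Γ.dist (tr (-b) m) (a i) = n → (Γ.dist (a i) m : ℤ) + n ≤ η b + 1 →
      ∃ r, i ≤ r ∧ r ≤ i + 2 * n ∧ tr (-b) m = a r := by
    intro n
    induction n with
    | zero => exact fun i h _ => ⟨i, le_rfl, le_rfl, dist_zero H.fine.pl h⟩
    | succ n ih =>
      intro i h l
      obtain ⟨y, ey, hy⟩ := dist_step H.fine.pl h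
      have t1 := dist_tri H.fine.pl (a i) m (tr b y)
      have t2 := H.tri' m ey
      rw [← dx, hy] at t1
      rcases two i y (H.sg ey w.1 (by omega)) with rfl | rfl
      all_goals
        obtain ⟨r, r1, r2, r3⟩ := ih _ hy (by omega)
        exact ⟨r, by omega, by omega, r3⟩
  obtain ⟨r, r1, r2, r3⟩ := key (η b).toNat 2 (by rw [a2, dx]; omega)
    (by rw [a2, dist_adj e]; omega)
  have up : ∀ c i j, a j = tr c (a i) → a (j + 1) = tr c (a (i + 1)) := by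
    intro c i j h
    rcases two j _ (h ▸ (ha i).1.tr H c) with k | k
    · exact k.symm
    have o := (ha (i + 1)).1.tr H c
    rcases two j _ (h ▸ (ha i).2.tr H c) with k' | k'
    · exact absurd (k ▸ k' ▸ o) ((ha (j + 1)).1.asymm H)
    · exact absurd (k'.trans k.symm) o.1.ne
  have per : ∀ i, a (r + i) = tr (-b) (a (1 + i)) := fun i => by
    induction i with
    | zero => exact r3.symm.trans (by rw [← a1])
    | succ i ih => exact up _ _ _ ih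
  have ds : ∀ j, Γ.dist (a (1 + 2 * j)) (a 1) ≤ j := fun j => by
    induction j with
    | zero => exact SimpleGraph.dist_self.le
    | succ j ih => exact (H.tri' _ (ha (1 + 2 * j)).2.1).trans (by omega)
  have d := ds (r - 1)
  rw [show 1 + 2 * (r - 1) = r + (r - 1) by omega, per, show 1 + (r - 1) = r by omega, ← r3,
    a1] at d
  have l := dl_le (Γ := Γ) ((2 : ℤ) • b) (tr (-b) (tr (-b) m))
  rw [hN.smul, two_smul, ← OV.tr_tr, tr_neg', tr_neg'] at l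
  obtain ⟨z, hz⟩ := dl_ex (Γ := Γ) ⟨m.1⟩ b
  have := H.sl z b w.1
  change 2 * _ ≤ _ at l
  omega

end Pool.Agent.P.MP_08fd93_co.FR
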