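import Pool.Agent.P.MP_08fd93_co.FT.T2

/-! Frames with one orbit of short tails: colours and tokens of the tail, special tops. -/

set_option autoImplicit false

namespace Pool.Agent.P.MP_08fd93_co.TT

open OV PkPrtP FB FE FZ FN FU FR FK FP2

variable {J : Type} {G : TD J} {φ : Vx J → Vx J} {v z la lb lc ld e t k x y g : Vx J}
  {f f' : Sym2 (Vx J)} {j : ℤ} {S : Set (Sym2 (Vx J))} {P Vs : Set (Vx J)} {p : PD J} {fl : Fl}
  {M : MU J} {d : DD (Vx J)} {u : Un J}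

/-- The plan: the head has a spare token; the neck has a spare token if its feet have one
colour, else it has the colour of the foot `q`. -/
theorem plan (h : TQ G v z la lb lc ld) {D : ED J} {A : Set (Vx J)} (hE : EOk2 (FT G) D)
    (hA : Ori (FT G) D A) (tv tz pz q : Vx J)
    (hq : G.xl z ≠ G.xr z → (q = G.xl z ∧ q ∈ A) ∨ (q = G.xr z ∧ q ∉ A)) :
    ∃ (p : PD J) (π o0 : Vx J → Vx J), RP2 (FT G) D A p.c o0 p.dn ∧ Plan0 (FT G) (XT G) p ∧
      (∀ k ∈ G.V, (p.c k.1).1 = p.cls (G.f k - 1)) ∧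
      (∀ x ∈ G.LA, x.1 ≠ q.1 ∨ p.c (G.xl z).1 = p.c (G.xr z).1 → p.o x = o0 x) ∧
      (∀ a, p.o (tr a v) = tr a v ∧ p.kc (tr a v) = tr a tv ∧ π (tr a v) = tr a z) ∧
      (p.c (G.xl z).1 = p.c (G.xr z).1 →
        ∀ a, p.o (tr a z) = tr a z ∧ p.kc (tr a z) = tr a tz ∧ π (tr a z) = tr a pz) ∧
      (p.c (G.xl z).1 ≠ p.c (G.xr z).1 → p.c z.1 = p.c q.1) := by
  classical
  have hF := h.st.lay
  have R := h.rows
  have V := h.st.tf
  obtain ⟨c0, o0, dn, hR⟩ := rp_ex2 hF R.wp.ev hE hA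
  obtain ⟨⟨l0, l1⟩, ⟨r0, r1⟩, lr, -⟩ := h.feet
  let m : Prop := c0 (G.xl z).1 = c0 (G.xr z).1
  let cz : Col := if m then ((c0 (G.xl z).1).1, !(c0 (G.xl z).1).2) else c0 q.1
  let c : J → Col := fun i => if i = v.1 then (cz.1, !cz.2) else if i = z.1 then cz else c0 i
  let o : Vx J → Vx J := fun x => if x.1 = v.1 then x else
    if x.1 = z.1 then (if m then x else tr (x.2 - z.2) q) else
      if x.1 = q.1 ∧ ¬ m then tr (x.2 - q.2) z else o0 x
  let tk : Vx J → Vx J → Vx J → Vx J := fun s t x =>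
    if x.1 = v.1 then tr (x.2 - v.2) s else tr (x.2 - z.2) t
  let p0 : PD J := ⟨c0, o0, dn, fun _ => cz, fun j => decide (Even j), id⟩
  let p1 : PD J := ⟨c, o, dn, fun _ => cz, fun j => decide (Even j), tk tv tz⟩
  let p : PD J := { p1 with cx := cxS (FT G) p1 }
  have hR0 : RP2 (FT G) D A p0.c p0.o p0.dn := hR
  have zv : ¬ z.1 = v.1 := h.ne.symm
  have hq' : ¬ m → (q = G.xl z ∧ q ∈ A) ∨ (q = G.xr z ∧ q ∉ A) := fun n => hq fun c =>
    n (congrArg (fun x : Vx J => c0 x.1) c)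
  have nx : ¬ m → G.nx (G.xl z) = G.xr z := fun n => (lr.resolve_left fun c =>
    n (congrArg (fun x : Vx J => c0 x.1) c.symm)).symm
  have q0 : ¬ m → q ∈ G.L 0 := fun n => (hq' n).elim (fun a => a.1 ▸ l0) fun a => a.1 ▸ r0
  have ec : ∀ x ∈ G.LA, p.c x.1 = c0 x.1 := fun x hx =>
    (if_neg (h.la_nk hx).1).trans (if_neg (h.la_nk hx).2)
  have eo : ∀ x ∈ G.LA, x.1 ≠ q.1 ∨ m → p.o x = o0 x := fun x hx a =>
    (if_neg (h.la_nk hx).1).trans ((if_neg (h.la_nk hx).2).trans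
      (if_neg fun b => a.elim (fun a => a b.1) b.2))
  have em : (p.c (G.xl z).1 = p.c (G.xr z).1) = m := by rw [ec _ (R.la l0), ec _ (R.la r0)]
  have cv : p.c v.1 = (cz.1, !cz.2) := if_pos rfl
  have ez : p.c z.1 = cz := (if_neg zv).trans (if_pos rfl)
  have sub : ∀ (a : ℤ × ℤ) (x : Vx J), (tr a x).2 - x.2 = a := fun a x => by simp [tr]
  have tk1 : ∀ s t a, tk s t (tr a v) = tr a s := fun s t a => (if_pos rfl).trans (by rw [sub])
  have tk2 : ∀ s t a, tk s t (tr a z) = tr a t := fun s t a => (if_neg zv).trans (by rw [sub])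
  have c1 : cz.1 = true := by
    have e1 : ∀ x ∈ G.L 0, (c0 x.1).1 = true := fun x hx => by
      have : (c0 x.1).1 = decide (Even (G.f x)) := hR.cl x (R.la hx)
      rw [this, R.uw.lf _ _ hx]
      rfl
    by_cases hm : m
    exacts [(congrArg Prod.fst (if_pos hm)).trans (e1 _ l0),
      (congrArg Prod.fst (if_neg hm)).trans (e1 _ (q0 hm))]
  have kc : ∀ k ∈ G.V, (p.c k.1).1 = decide (Even (G.f k - 1)) := fun k hk => by
    rw [decide_eq_true ((h.odd hk).sub_odd odd_one)]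
    rcases (h.eV k).1 hk with r | r
    exacts [by rw [r, cv]; exact c1, by rw [r, ez]; exact c1]
  have vz : p.c v.1 ≠ p.c z.1 := by
    rw [cv, ez]
    exact flip_ne _
  refine ⟨p, tk z pz, o0, hR.congr hF ec (fun _ _ => rfl) fun _ _ => Iff.rfl,
    ⟨fun j => ?_, fun x hx => (congrArg Prod.fst (ec x hx)).trans (hR.cl x hx), fun a x hx => ?_,
      fun a x _ => ?_, fun k hk y hy a e => ?_, fun y hy e => ?_, fun _ => rfl⟩, kc,
    fun x hx a => eo x hx (em ▸ a), fun a => ⟨if_pos rfl, tk1 _ _ a, tk1 _ _ a⟩,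
    fun hm a => ⟨(if_neg zv).trans ((if_pos rfl).trans (if_pos (em ▸ hm))), tk2 _ _ a, tk2 _ _ a⟩,
    fun hm => ?_⟩
  · simp only [p, p1, ne_eq, decide_eq_decide, Int.even_add_one]
    tauto
  · show o (tr a x) = tr a (o x)
    by_cases k1 : x.1 = v.1
    · simp only [o, if_pos k1, if_pos (show (tr a x).1 = v.1 from k1)]
    simp only [o, if_neg k1, if_neg (show ¬ (tr a x).1 = v.1 from k1)]
    by_cases k3 : x.1 = z.1
    · simp only [if_pos k3, if_pos (show (tr a x).1 = z.1 from k3)]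
      split_ifs
      exacts [rfl, tr_sub a x z q]
    rw [if_neg k3, if_neg (show ¬ (tr a x).1 = z.1 from k3)]
    by_cases k2 : x.1 = q.1 ∧ ¬ m
    · rw [if_pos k2, if_pos (show (tr a x).1 = q.1 ∧ ¬ m from k2)]
      exact tr_sub a x q z
    · rw [if_neg k2, if_neg (show ¬ ((tr a x).1 = q.1 ∧ ¬ m) from k2)]
      exact hR.otr hF a (hx.resolve_right fun k => ((h.eV x).1 k).elim k1 k3)
  · show tk tv tz (tr a x) = tr a (tk tv tz x)
    by_cases k1 : x.1 = v.1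
    exacts [(if_pos k1).trans ((tr_sub a x v tv).trans (congrArg _ (if_pos k1).symm)),
      (if_neg k1).trans ((tr_sub a x z tz).trans (congrArg _ (if_neg k1).symm))]
  · have hk : k ∈ G.V := hk
    rcases hy with hy | hy
    swap
    · exfalso
      have hy : y ∈ G.V := hy
      have md := V.vn k hk y hy a
      obtain ⟨b, rfl | rfl⟩ := h.k_tr hk <;> obtain ⟨b', rfl | rfl⟩ := h.k_tr hy
      · rw [h.md_v, h.md_v] at md
        exact a.ne (by rw [tr_eq_tr md])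
      · exact vz e.symm
      · exact vz e
      · rw [h.md_z, h.md_z] at md
        exact a.ne md
    have hy : y ∈ G.LA := hy
    rcases h.st.k_nb hk hy a with r | ⟨md, r⟩
    · have c2 : (p.c y.1).1 = decide (Even (G.f y)) := (congrArg Prod.fst (ec y hy)).trans
        (hR.cl y hy)
      rw [e, kc k hk, r, decide_eq_decide, Int.even_sub_one] at c2
      tauto
    obtain ⟨b, rfl | rfl⟩ := h.k_tr hk
    · rw [h.md_v] at md
      exact absurd (congrArg Prod.fst md) zv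
    rw [(V.xtr b z).1, (V.xtr b z).2.1] at r
    have e : c0 y.1 = cz := (ec y hy).symm.trans (e.trans ez)
    have hm : ¬ m := fun hm => by
      have : c0 y.1 = c0 (G.xl z).1 := r.elim (fun r => by rw [r]; rfl)
        fun r => by rw [r]; exact hm.symm
      exact flip_ne _ ((if_pos hm).symm.trans (e.symm.trans this))
    have e : c0 y.1 = c0 q.1 := e.trans (if_neg hm)
    obtain rfl : y = tr b q := by
      rcases r with rfl | rfl <;> rcases hq' hm with ⟨r, -⟩ | ⟨r, -⟩ <;> rw [r] at e ⊢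
      exacts [absurd e hm, absurd e.symm hm]
    refine ⟨(if_neg zv).trans ((if_pos rfl).trans ((if_neg hm).trans ?_)),
      (if_neg (h.la_nk hy).1).trans ((if_neg (h.la_nk hy).2).trans
        ((if_pos ⟨rfl, hm⟩).trans ?_))⟩ <;> rw [sub]
  · have hy : y ∈ G.LA := hy
    have n := nx_la hF hy
    have e : c0 (G.nx y).1 = c0 y.1 := (ec _ n).symm.trans (e.trans (ec y hy))
    obtain ⟨a1, a2⟩ := hR0.mono hF hy e
    have sk := hR.mono_snk hy e
    refine ⟨(eo y hy (or_iff_not_imp_right.2 fun hm c => ?_)).trans a1,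
      (eo _ n (or_iff_not_imp_right.2 fun hm c => ?_)).trans a2⟩
    · rcases hq' hm with ⟨r, -⟩ | ⟨-, r⟩
      · rw [r] at c
        rw [c, (R.nx_orb hy (R.la l0)).2 c, nx hm] at e
        exact hm e.symm
      · exact r ((hA.inv _ q (R.la (q0 hm))).1 (orb_eq c ▸ hA.snk y hy sk))
    · rcases hq' hm with ⟨-, r⟩ | ⟨r, -⟩
      · exact hA.snk' y hy sk (orb_eq c ▸ (hA.inv _ q (R.la (q0 hm))).2 r)
      · have c : (G.nx y).1 = (G.xr z).1 := r ▸ c
        rw [c, (R.nx_orb hy (R.la l0)).1 (c.trans (by rw [nx hm]))] at e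
        exact hm e.symm
  · have hm : ¬ m := em ▸ hm
    exact ez.trans ((if_neg hm).trans (ec q (R.la (q0 hm))).symm)

section

variable (h : ST G) (hp : PS (FT G) (XT G) G.Pr p (PQT G P Vs fl))
include h hp

/-- under a cap over an edge that is paid below -/
theorem cap_loc (hd : DC G M d) (hu : M.us = {u}) (o : (PQT G P Vs fl).Ok0 (FT G) u)
    (n : u.x ≠ u.s) (c : (FT G).Cov u e) (d0 : p.Dn (FT G) e) (dn : DnS G p (PQT G P Vs fl)) :
    FE.Sl (FT G) p ((PQT G P Vs fl).Ok (FT G)) M d ((PQT G P Vs fl).SU (FT G) M) ∅ ∨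
      ((PQT G P Vs fl).SU (FT G) M ⊆ SST G P fl e ∧ p.R (FT G) u.s ∧ p.Lt (FT G) u.s') := by
  by_cases sp : ∃ y, (FT G).Cov u y ∧ SpT G p (PQT G P Vs fl) y
  · obtain ⟨y, a, b⟩ := sp
    exact Or.inl (b M d u hd hu o a)
  right
  have hF := h.lay
  have vu := (one_ends hF hd.hM hu).1
  have os := o.resolve_right fun k => k.2
  have pt := hp.pt hF os n
  have ns : ∀ y, (FT G).Cov u y → y ∉ (PQT G P Vs fl).St (FT G) := fun y m s =>
    n (by rw [hp.stat hF vu o s m]; rfl)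
  have db := fun y (m : (FT G).Cov u y) =>
    hp.pl.up_dn hF (hF.la m.1) (hp.up y (hF.la m.1) (os.2 n y m))
  obtain ⟨r, l⟩ := chain_dbl hF vu pt c (db e c d0)
  refine ⟨?_, r, l⟩
  rintro f ⟨t, ht, y, m, k⟩
  rw [hu] at ht
  subst ht
  exact chain_uni hF pt m c (db y m ((dn y (hF.la m.1) (ns y m) ⟨f, k⟩).resolve_right
    fun q => sp ⟨y, m, q⟩)) (db e c d0) ▸ k

/-- an edge that is paid below and whose strict edges have an output in every macro cell -/
theorem dyn (he : e ∈ G.LA) (sub : SST G P fl e ⊆ S) (d0 : p.Dn (FT G) e)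
    (dn : DnS G p (PQT G P Vs fl)) (k : ∀ M d u, DC G M d → M.us = {u} → (FT G).Cov u e →
      S ⊆ PE G.Γ d.X ∧ ∃ o, Out G.Γ d S o) : SpT G p (PQT G P Vs fl) e := by
  intro M d u hd hu o c
  have hF := h.lay
  have mu : u ∈ M.us := hu ▸ rfl
  have vu := (hd.hM.val u mu).1
  obtain ⟨hS, O, hO⟩ := k M d u hd hu c
  by_cases n : u.x = u.s
  · have eu := hF.eq_tv vu n
    obtain rfl : e = u.s := hF.tv_cov vu.hs (eu ▸ c)
    obtain rfl := hd.eq_mt h (eu ▸ hu)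
    rw [(mt_c1 he).su hF]
    exact (sl_out hF hd.hM hd.mc hu hO hS fun _ => t1_dn hF vu mu n d0).mono sub
      (Set.empty_subset _)
  · refine (cap_loc h hp hd hu o n c d0 dn).elim id fun ⟨k1, k2, k3⟩ => ?_
    exact (sl_out hF hd.hM hd.mc hu hO hS fun ok => t1_cap (hp.plan hF) vu ok mu n k2 k3).mono
      (k1.trans sub) (Set.empty_subset _)

omit hp in
/-- the basic cell is the part of the cell under a cap that ends at `nx e` -/
theorem prt' (hd : DC G M d) (hu : M.us = {u}) (n : u.x ≠ u.s) (he : e ∈ G.LA)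
    (r : G.nx e = u.s') (ev : ∀ y ∈ G.L (G.f e), G.an y ∉ G.V) (ne : G.an e ≠ G.an (G.nx e)) :
    Prt G.Γ (rvD d) (rvD (Bd G e)) e (G.an e) := by
  have R := h.tf.toRows
  have mu : u ∈ M.us := hu ▸ rfl
  obtain ⟨vu, e1, e2⟩ := one_ends h.lay hd.hM hu
  obtain ⟨n1, n2, n3⟩ := R.nx_mem he
  have cu := cap_of vu n
  have lt : G.ρ u.s + 1 < G.ρ u.s' := cu.lt
  have lv : G.f u.s = G.f e := (R.uw.lf _ _ vu.hs').symm.trans (r ▸ R.uw.lf _ _ n1)
  have he' : e ∈ G.L (G.f u.s) := lv ▸ he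
  have hs : u.s ∈ G.L (G.f e) := lv ▸ vu.hs
  rw [← r] at lt
  have c : (FT G).Cov u e := ⟨he', show G.ρ _ ≤ G.ρ _ by omega, r ▸ show G.ρ _ < G.ρ _ by omega⟩
  have E := h.bd_disc he
  have D := hd.mc.disc
  have qb : G.an e ∈ (Bd G e).X := E.px.ha
  have sub := hd.bt h mu c
  have eb : d.b' = G.nx e := hd.mc.eb'.trans (e2.symm.trans r.symm)
  have bx : d.X = G.Bt u.s (G.nx e) := by rw [hd.eX, ← e1, ← e2, ← r]
  have nv : ∀ x ∈ d.X, x ∉ G.V := fun x m a =>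
    (h.tf.bt_v (bx ▸ m) a).elim (fun b => ev _ hs (h.tf.ct_v b)) fun b => ev _ n1 (h.tf.ct_v b)
  have ord : ∀ x ∈ (Bd G e).X, d.ρ x = (Bd G e).ρ x := fun x m =>
    (hd.mc.rx x (sub m) (nv x (sub m))).trans (tord_old (nv x (sub m))).symm
  obtain ⟨w, hw, -⟩ := D.tz (Or.inl D.px.ha)
  refine ⟨show e ∈ d.I from hd.eI ▸ Or.inl ⟨u, mu, (cu.old _ he').2
      ⟨show G.ρ _ < G.ρ _ by omega, c.2.2⟩⟩, sub qb, (h.tf.aa _ _ he (h.pr _)).1,
    show G.Γ.Adj e d.b' from eb ▸ n3, disc_rv E, fun x => ⟨fun m => ⟨sub m, ?_⟩, fun m => ?_⟩,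
    fun x => (h.bd_Y he).trans (show _ ↔ x = d.b' ∨ _ from eb ▸ or_comm),
    fun x m => congrArg (0 - ·) (ord x m).symm,
    show G.an (G.nx e) = d.b by rw [hd.eb, ← e2, r], rfl, w,
    (z_iff E).2 ⟨fun m => D.xz (sub m) hw, fun m =>
      (hd.bY h mu c m).elim (Z_I hw) fun m => D.yz m hw, fun m => Z_I hw (hd.bI h mu c m)⟩, hw⟩
  · show 0 - d.ρ x ≤ 0 - d.ρ _
    rw [ord x m, ord _ qb]
    exact sub_le_sub_left (E.px.lo x m) 0
  · obtain ⟨m, l⟩ := m
    have m : x ∈ d.X := m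
    have l : d.ρ (G.an e) ≤ d.ρ x := (sub_le_sub_iff_left 0).1 l
    obtain ⟨b1, -, b3⟩ := h.tf.bt_line hs (h.pr _) n1 (h.pr _) (by omega) (bx ▸ m) (nv x m)
    refine h.bt_of he (by rwa [h.tf.nk_o (ev _ he), h.tf.nk_o (ev _ n1)]) b1 ?_ b3
    rwa [hd.mc.rx x m (nv x m), hd.mc.rx _ (sub qb) (ev _ he), ← (h.tf.xo _ (ev _ he)).2.1] at l

/-- a monochromatic edge with a visible right end over two strict edges -/
theorem rem (he : e ∈ G.LA) (v0 : G.nx e ∈ Vs) (ev : ∀ y ∈ G.L (G.f e), G.an y ∉ G.V)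
    (sub : SST G P fl e ⊆ {f, f'}) (m1 : f ∈ PE G.Γ (Bd G e).X) (m2 : f' ∈ PE G.Γ (Bd G e).X)
    (m : p.c e.1 = p.c (G.nx e).1) (dn : DnS G p (PQT G P Vs fl)) : SpT G p (PQT G P Vs fl) e := by
  intro M d u hd hu o c
  have hF := h.lay
  have R := h.tf.toRows
  have mu : u ∈ M.us := hu ▸ rfl
  obtain ⟨vu, -, e2⟩ := one_ends hF hd.hM hu
  obtain ⟨X', Q, t, -, O⟩ := h.eb_ex he m1 m2
  by_cases n : u.x = u.s
  · have eu := hF.eq_tv vu n
    obtain rfl : e = u.s := hF.tv_cov vu.hs (eu ▸ c)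
    obtain rfl := hd.eq_mt h (eu ▸ hu)
    rw [(mt_c1 he).su hF]
    exact (h.dcb he).sl hd ((sl_ebT O (Or.inl m)).mono sub (Set.empty_subset _))
  refine (cap_loc h hp hd hu o n c (Or.inl m.symm) dn).elim id fun ⟨k1, k2, k3⟩ => ?_
  obtain ⟨a, b, r⟩ := hd.rng h mu c
  obtain ⟨n1, n2, -⟩ := R.nx_mem a
  have oo : ∀ t ∈ M.us, (PQT G P Vs fl).Nv (FT G) t := fun t ht => by
    rw [hu] at ht
    exact ht ▸ o.nv
  have r' : G.nx e = u.s' := (R.inj n1 hd.hM.hs' (by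
    rcases vis_out hF hd.hM oo n1 v0 (h.pr _) with g | g
    · have g : G.ρ (G.nx e) ≤ G.ρ M.s := g
      omega
    · have g : G.ρ M.s' ≤ G.ρ (G.nx e) := g
      show G.ρ _ = G.ρ _
      omega)).trans e2.symm
  obtain ⟨_, x1, _, x2, x3, -⟩ := id m1
  refine (sl_rem' (t := t) hF hd.hM hd.mc hu n (prt' h hd hu n he r' ev (bt_ne' x1 x2 x3.ne))
    (O.imp' fun c A _ m => m.imp_left fun m => by rw [r', m]) fun _ => ⟨k2, k3, ?_,
      Or.inr ?_⟩).mono (k1.trans sub) (Set.empty_subset _)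
  · rw [hp.pl.cx]
    unfold cxS
    split_ifs with q
    · rw [q]
      exact flip_ne _
    · exact q
  · by_cases q : p.c u.s.1 = p.c u.s'.1
    · refine Or.inr fun ad => ?_
      have c1 : G.ρ u.s ≤ G.ρ e := c.2.1
      obtain ⟨s1, s2, -⟩ := R.nx_mem vu.hs
      have ee : G.nx u.s = e := R.inj s1 c.1 (by
        have := (R.adj_iff c.1 vu.hs).1 ad
        omega)
      have m1 := (hp.pl.mono u.s vu.hs (by
        rw [show (FT G).nx u.s = e from ee, m, r', q])).2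
      have m2 := (hp.pl.mono e he m.symm).1
      rw [show (FT G).nx u.s = e from ee, m2] at m1
      have := congrArg G.ρ m1
      rw [show G.ρ ((FT G).nx e) = G.ρ e + 1 from n2] at this
      omega
    · left
      rw [hp.pl.cx]
      unfold cxS
      rw [if_neg q, if_pos k2]

omit h hp in
/-- the top is not monochromatic and its end `t` pays -/
theorem sl_pr {X' Q : Set (Vx J)} {Ok : Un J → Prop}
    (O : OutX G.Γ (Bd G e) S X' Q fun c A => c e ≠ c (G.nx e) ∧ t ∈ A) (pd : PayE (FT G) p e t)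
    (m : p.c e.1 ≠ p.c (G.nx e).1) : FE.Sl (FT G) p Ok (Mt G e) (Bd G e) S ∅ := by
  refine ⟨X', Q, _, O, Set.empty_subset _, fun _ σ c hc _ => ?_⟩
  obtain ⟨c1, c2, -⟩ := hc _ rfl
  refine ⟨fun k => m (c1.symm.trans ((σ.injective k).trans c2)), ?_⟩
  rcases pd.resolve_left m with ⟨rfl, a⟩ | ⟨rfl, a⟩
  exacts [Or.inl ⟨_, rfl, rfl, m, Or.inl ⟨rfl, a.1⟩, a.2⟩,
    Or.inl ⟨_, rfl, rfl, m, Or.inr ⟨rfl, a.1⟩, a.2⟩]

end

end Pool.Agent.P.MP_08fd93_co.TT
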